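import Pool.Agent.H70FM.Trip

/-!
The asymptotic form of the construction.
-/

open Finset

namespace Pool.Agent.H70FM

/-- `x ^ 2 / log x` is increasing from `e` on -/
theorem sq_div_log_mono {x y : ℝ} (hx : Real.exp 1 ≤ x) (hxy : x ≤ y) :
    x ^ 2 / Real.log x ≤ y ^ 2 / Real.log y := by
  have hx0 : 0 < x := (Real.exp_pos 1).trans_le hx
  have hy0 : 0 < y := hx0.trans_le hxy
  have hlx : 1 ≤ Real.log x := by rw [← Real.log_exp 1]; exact Real.log_le_log (Real.exp_pos 1) hx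
  have hly : 1 ≤ Real.log y := hlx.trans (Real.log_le_log hx0 hxy)
  have h := Real.log_div_self_antitoneOn hx (show Real.exp 1 ≤ y from hx.trans hxy) hxy
  simp only at h
  rw [div_le_div_iff₀ hy0 hx0] at h
  rw [div_le_div_iff₀ (by linarith) (by linarith)]
  have h2 : Real.log y * x * x ≤ Real.log x * y * y := by
    calc Real.log y * x * x ≤ (Real.log x * y) * x := mul_le_mul_of_nonneg_right h hx0.le
      _ ≤ (Real.log x * y) * y := mul_le_mul_of_nonneg_left hxy (by positivity)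
  nlinarith

theorem main (a : ℕ) (ha : 1 ≤ a) (X : ℕ) :
    ∃ b c : ℕ, X < b ∧ a + b = c ∧ Nat.Coprime a b ∧
      (rad (a * b * c) : ℝ) *
        Real.exp ((1 / 1000) * Real.log (Real.log c) ^ 2 / Real.log (Real.log (Real.log c))) <
        c := by
  obtain ⟨n, hn⟩ : ∃ n : ℕ, n = 32 * a ^ 5 + X + 100 := ⟨_, rfl⟩
  have hn100 : 100 ≤ n := by omega
  have hna : 32 * a ^ 5 ≤ n := by omega
  have hnX : X < n := by omega
  obtain ⟨T, hT⟩ : ∃ T : ℕ, T = 1 + a * n := ⟨_, rfl⟩
  have hTn : n + 1 ≤ T := by rw [hT]; nlinarith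
  have hTa : a + 1 ≤ T := by rw [hT]; nlinarith
  have hT2 : 2 ≤ T := by omega
  obtain ⟨Y, hY⟩ : ∃ Y : ℕ, Y = T ^ (8 * n) := ⟨_, rfl⟩
  have hYT : T ≤ Y := by
    rw [hY]; exact Nat.le_self_pow (by omega) T
  have hY2 : T ^ 2 ≤ Y := by
    rw [hY]; exact Nat.pow_le_pow_right (by omega) (by omega)
  obtain ⟨l, hl, hYl, hl2Y⟩ := Nat.exists_prime_lt_and_le_two_mul Y (by omega)
  have hal : a < l := by omega
  have h2n : 2 * n + 1 < T ^ 2 := by nlinarith
  have hnl : 2 * n + 1 < l := by omega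
  obtain ⟨b, c, hb, hbc, hcop, hlb, hrad, hlog⟩ := triple a n l ha (by omega) hl hal hnl
  have hlpos : 0 < l := hl.pos
  refine ⟨b, c, ?_, hbc, hcop, ?_⟩
  · have h1 : l ≤ l ^ (2 * n + 2) := Nat.le_self_pow (by omega) l
    omega
  -- the radical
  have hterm : ∀ i ∈ Ico 1 (n + 1), 1 + a * i * l ≤ T * l := by
    intro i hi
    have hi' := Finset.mem_Ico.mp hi
    rw [hT, add_mul, one_mul]
    have : a * i * l ≤ a * n * l := Nat.mul_le_mul_right _ (Nat.mul_le_mul_left _ (by omega))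
    omega
  have hprod : ∏ i ∈ Ico 1 (n + 1), (1 + a * i * l) ≤ (T * l) ^ n := by
    calc ∏ i ∈ Ico 1 (n + 1), (1 + a * i * l) ≤ ∏ _i ∈ Ico 1 (n + 1), (T * l) :=
          Finset.prod_le_prod' hterm
      _ = (T * l) ^ n := by rw [Finset.prod_const, Nat.card_Ico, Nat.add_sub_cancel]
  have hR1 : l ^ n * rad (a * b * c) ≤ c * (2 * T ^ (n + 1)) := by
    have h1 : a * (a + l) * ∏ i ∈ Ico 1 (n + 1), (1 + a * i * l) ≤
        T * (2 * l) * (T * l) ^ n := by
      refine Nat.mul_le_mul (Nat.mul_le_mul (by omega) (by omega)) hprod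
    have h2 : l ^ (n + 1) * (l ^ n * rad (a * b * c)) ≤ l ^ (n + 1) * (c * (2 * T ^ (n + 1))) := by
      calc l ^ (n + 1) * (l ^ n * rad (a * b * c)) = l ^ (2 * n + 1) * rad (a * b * c) := by
            rw [← mul_assoc, ← pow_add]; congr 2; ring
        _ ≤ c * (a * (a + l) * ∏ i ∈ Ico 1 (n + 1), (1 + a * i * l)) := hrad
        _ ≤ c * (T * (2 * l) * (T * l) ^ n) := Nat.mul_le_mul_left _ h1
        _ = l ^ (n + 1) * (c * (2 * T ^ (n + 1))) := by rw [mul_pow]; ring
    exact Nat.le_of_mul_le_mul_left h2 (by positivity)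
  have hR2 : T ^ (7 * n ^ 2) * rad (a * b * c) ≤ c := by
    have h1 : T ^ (8 * n * n) ≤ l ^ n := by
      rw [pow_mul, ← hY]
      exact Nat.pow_le_pow_left hYl.le n
    have h2 : T ^ (n + 2) * (T ^ (7 * n ^ 2) * rad (a * b * c)) ≤ T ^ (n + 2) * c := by
      calc T ^ (n + 2) * (T ^ (7 * n ^ 2) * rad (a * b * c))
          = T ^ (7 * n ^ 2 + (n + 2)) * rad (a * b * c) := by rw [pow_add]; ring
        _ ≤ T ^ (8 * n * n) * rad (a * b * c) := by
            refine Nat.mul_le_mul_right _ (Nat.pow_le_pow_right (by omega) ?_)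
            nlinarith
        _ ≤ l ^ n * rad (a * b * c) := Nat.mul_le_mul_right _ h1
        _ ≤ c * (2 * T ^ (n + 1)) := hR1
        _ ≤ c * (T * T ^ (n + 1)) :=
            Nat.mul_le_mul_left _ (Nat.mul_le_mul_right _ hT2)
        _ = T ^ (n + 2) * c := by rw [pow_succ T (n + 1)]; ring
    exact Nat.le_of_mul_le_mul_left h2 (by positivity)
  -- the size of `c`
  have hTR : (2 : ℝ) ≤ (T : ℝ) := by exact_mod_cast hT2
  have hTpos : (0 : ℝ) < T := by linarith
  have hlR : (1 : ℝ) ≤ (l : ℝ) := by exact_mod_cast hlpos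
  have hlpR : (0 : ℝ) < l := by linarith
  have hlogT0 : 0 < Real.log T := Real.log_pos (by linarith)
  have hlogT : Real.log 2 ≤ Real.log T := Real.log_le_log (by norm_num) hTR
  have hnR : (100 : ℝ) ≤ n := by exact_mod_cast hn100
  have hlup : (l : ℝ) ≤ 2 * (T : ℝ) ^ (8 * n) := by rw [hY] at hl2Y; exact_mod_cast hl2Y
  have hTl : Real.log (T * l) ≤ 10 * (T : ℝ) ^ 2 := by
    have h1 : (T : ℝ) * l ≤ (T : ℝ) ^ (8 * n + 2) := by
      calc (T : ℝ) * l ≤ T * (2 * (T : ℝ) ^ (8 * n)) := mul_le_mul_of_nonneg_left hlup hTpos.le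
        _ ≤ T * (T * (T : ℝ) ^ (8 * n)) := by gcongr
        _ = (T : ℝ) ^ (8 * n + 2) := by rw [pow_add]; ring
    have h2 : Real.log (T * l) ≤ (8 * n + 2 : ℕ) * Real.log T := by
      rw [← Real.log_pow]; exact Real.log_le_log (by positivity) h1
    have h3 : Real.log T ≤ T := Real.log_le_self hTpos.le
    have h4 : ((8 * n + 2 : ℕ) : ℝ) ≤ 10 * T := by
      have : ((8 * n + 2 : ℕ) : ℝ) ≤ ((10 * T : ℕ) : ℝ) := by
        exact_mod_cast (by omega : 8 * n + 2 ≤ 10 * T)
      simpa using this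
    calc Real.log (T * l) ≤ (8 * n + 2 : ℕ) * Real.log T := h2
      _ ≤ (10 * T) * T := mul_le_mul h4 h3 hlogT0.le (by positivity)
      _ = 10 * (T : ℝ) ^ 2 := by ring
  have hTcast : (1 + (a : ℝ) * n) = T := by rw [hT]; push_cast; ring
  have hlogc : Real.log c ≤ (T : ℝ) ^ (64 * n + 31) := by
    refine hlog.trans ?_
    rw [hTcast]
    set E : ℝ := 4 * (n + 1) * (108 * (T : ℝ) ^ (16 * n + 2) * (l : ℝ) ^ 2) ^ 2 with hE
    have hE0 : 0 ≤ E := by positivity
    have h1 : Real.log (a + l) ≤ Real.log (T * l) := by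
      refine Real.log_le_log (by positivity) ?_
      have : a + l ≤ T * l := by nlinarith
      exact_mod_cast this
    have h2 : ∀ i ∈ Ico 1 (n + 1), E * Real.log (1 + a * i * l) ≤ E * Real.log (T * l) := by
      intro i hi
      refine mul_le_mul_of_nonneg_left (Real.log_le_log (by positivity) ?_) hE0
      exact_mod_cast hterm i hi
    have h3 : ∑ i ∈ Ico 1 (n + 1), E * Real.log (1 + a * i * l) ≤ n * (E * Real.log (T * l)) := by
      refine (Finset.sum_le_sum h2).trans (le_of_eq ?_)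
      rw [Finset.sum_const, Nat.card_Ico, Nat.add_sub_cancel, nsmul_eq_mul]
    have h4 : E ≤ 746496 * (T : ℝ) ^ (64 * n + 5) := by
      have e1 : 108 * (T : ℝ) ^ (16 * n + 2) * (l : ℝ) ^ 2 ≤ 432 * (T : ℝ) ^ (32 * n + 2) := by
        calc 108 * (T : ℝ) ^ (16 * n + 2) * (l : ℝ) ^ 2
            ≤ 108 * (T : ℝ) ^ (16 * n + 2) * (2 * (T : ℝ) ^ (8 * n)) ^ 2 := by gcongr
          _ = 432 * (T : ℝ) ^ (32 * n + 2) := by
              rw [mul_pow, ← pow_mul]
              have : (T : ℝ) ^ (32 * n + 2) = (T : ℝ) ^ (16 * n + 2) * (T : ℝ) ^ (8 * n * 2) := by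
                rw [← pow_add]; congr 1; ring
              rw [this]; ring
      have e2 : (n : ℝ) + 1 ≤ T := by exact_mod_cast hTn
      calc E ≤ 4 * (T : ℝ) * (432 * (T : ℝ) ^ (32 * n + 2)) ^ 2 := by rw [hE]; gcongr
        _ = 746496 * (T : ℝ) ^ (64 * n + 5) := by
            rw [mul_pow, ← pow_mul]
            have : (T : ℝ) ^ (64 * n + 5) = T * (T : ℝ) ^ ((32 * n + 2) * 2) := by
              rw [← pow_succ']; congr 1; ring
            rw [this]; ring
    have h5 : (n : ℝ) ≤ T := by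
      have : (n : ℝ) + 1 ≤ T := by exact_mod_cast hTn
      linarith
    have h6 : (n : ℝ) * (E * Real.log (T * l)) ≤ 7464960 * (T : ℝ) ^ (64 * n + 8) := by
      have hlog0 : 0 ≤ Real.log (T * l) := Real.log_nonneg (by nlinarith)
      calc (n : ℝ) * (E * Real.log (T * l))
          ≤ T * ((746496 * (T : ℝ) ^ (64 * n + 5)) * (10 * (T : ℝ) ^ 2)) := by gcongr
        _ = 7464960 * (T : ℝ) ^ (64 * n + 8) := by
            have : (T : ℝ) ^ (64 * n + 8) = T * ((T : ℝ) ^ (64 * n + 5) * (T : ℝ) ^ 2) := by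
              rw [← pow_add, ← pow_succ']
            rw [this]; ring
    have h7 : 10 * (T : ℝ) ^ 2 ≤ 10 * (T : ℝ) ^ (64 * n + 8) := by
      gcongr
      · linarith
      · omega
    have h8 : (7464970 : ℝ) ≤ (T : ℝ) ^ 23 := by
      calc (7464970 : ℝ) ≤ (2 : ℝ) ^ 23 := by norm_num
        _ ≤ (T : ℝ) ^ 23 := by gcongr
    calc Real.log (a + l) + ∑ i ∈ Ico 1 (n + 1), E * Real.log (1 + a * i * l)
        ≤ 10 * (T : ℝ) ^ (64 * n + 8) + 7464960 * (T : ℝ) ^ (64 * n + 8) := by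
          refine add_le_add ((h1.trans hTl).trans h7) (h3.trans h6)
      _ = 7464970 * (T : ℝ) ^ (64 * n + 8) := by ring
      _ ≤ (T : ℝ) ^ 23 * (T : ℝ) ^ (64 * n + 8) := by gcongr
      _ = (T : ℝ) ^ (64 * n + 31) := by rw [← pow_add]; congr 1; ring
  have hlog2 : (0.69 : ℝ) < Real.log 2 := by have := Real.log_two_gt_d9; linarith
  -- lower bound for `log c`
  have hcl : (l : ℝ) ≤ c := by
    have h1 : l ≤ l ^ (2 * n + 2) := Nat.le_self_pow (by omega) l
    exact_mod_cast (by omega : l ≤ c)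
  have hlogc_low : 21 ≤ Real.log c := by
    have h0 : (T : ℝ) ^ (8 * n) ≤ l := by
      have := hYl.le
      rw [hY] at this
      exact_mod_cast this
    have h1 : (T : ℝ) ^ (8 * n) ≤ c := le_trans h0 hcl
    have h2 : Real.log ((T : ℝ) ^ (8 * n)) ≤ Real.log c := Real.log_le_log (by positivity) h1
    rw [Real.log_pow] at h2
    push_cast at h2
    have h3 : (100 : ℝ) * 0.69 ≤ n * Real.log T :=
      mul_le_mul hnR (by linarith) (by norm_num) (by linarith)
    linarith
  have hexp1 : Real.exp 1 < 2.7182818286 := Real.exp_one_lt_d9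
  set L : ℝ := Real.log (Real.log c) with hL
  have hLe : Real.exp 1 ≤ L := by
    rw [hL, Real.le_log_iff_exp_le (by linarith)]
    calc Real.exp (Real.exp 1) ≤ Real.exp 3 := Real.exp_le_exp.mpr (by linarith)
      _ = Real.exp 1 ^ 3 := by rw [← Real.exp_nat_mul]; norm_num
      _ ≤ 2.7182818286 ^ 3 := by gcongr
      _ ≤ 21 := by norm_num
      _ ≤ Real.log c := hlogc_low
  have hLup : L ≤ 65 * n * Real.log T := by
    have h1 : L ≤ Real.log ((T : ℝ) ^ (64 * n + 31)) :=
      Real.log_le_log (by linarith) hlogc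
    rw [Real.log_pow] at h1
    push_cast at h1
    have h2 : 31 * Real.log T ≤ n * Real.log T :=
      mul_le_mul_of_nonneg_right (by linarith) hlogT0.le
    linarith
  have hmono := sq_div_log_mono hLe hLup
  have hnpos : (0 : ℝ) < n := by linarith
  have hlogn : 0 < Real.log n := Real.log_pos (by linarith)
  have hΛn : (n : ℝ) ≤ 65 * n * Real.log T := by
    have h1 : (n : ℝ) * 0.69 ≤ n * Real.log T := mul_le_mul_of_nonneg_left (by linarith) hnpos.le
    linarith
  have hlogΛ : Real.log n ≤ Real.log (65 * n * Real.log T) := Real.log_le_log hnpos hΛn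
  have hTn65 : 5 * Real.log T ≤ 6 * Real.log n := by
    have h1 : T ^ 5 ≤ n ^ 6 := by
      have h2 : T ≤ 2 * a * n := by
        rw [hT]
        have : 1 ≤ a * n := Nat.one_le_iff_ne_zero.mpr (by positivity)
        nlinarith
      calc T ^ 5 ≤ (2 * a * n) ^ 5 := Nat.pow_le_pow_left h2 5
        _ = (32 * a ^ 5) * n ^ 5 := by ring
        _ ≤ n * n ^ 5 := Nat.mul_le_mul_right _ hna
        _ = n ^ 6 := by ring
    have h3 : ((T : ℝ)) ^ 5 ≤ (n : ℝ) ^ 6 := by exact_mod_cast h1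
    have h4 := Real.log_le_log (by positivity) h3
    rw [Real.log_pow, Real.log_pow] at h4
    push_cast at h4
    exact h4
  have hfinal : (1 / 1000) * L ^ 2 / Real.log L < (7 * n ^ 2 : ℕ) * Real.log T := by
    have h1 : L ^ 2 / Real.log L ≤ (65 * n * Real.log T) ^ 2 / Real.log n := by
      refine hmono.trans ?_
      exact div_le_div_of_nonneg_left (by positivity) hlogn hlogΛ
    have h2 : (65 * (n : ℝ) * Real.log T) ^ 2 / Real.log n ≤ 5070 * n ^ 2 * Real.log T := by
      rw [div_le_iff₀ hlogn]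
      have h3 : (65 * (n : ℝ) * Real.log T) ^ 2 =
          845 * (n : ℝ) ^ 2 * Real.log T * (5 * Real.log T) := by ring
      rw [h3]
      calc 845 * (n : ℝ) ^ 2 * Real.log T * (5 * Real.log T)
          ≤ 845 * (n : ℝ) ^ 2 * Real.log T * (6 * Real.log n) := by gcongr
        _ = 5070 * (n : ℝ) ^ 2 * Real.log T * Real.log n := by ring
    have h4 : (1 / 1000) * L ^ 2 / Real.log L = (1 / 1000) * (L ^ 2 / Real.log L) := by ring
    rw [h4]
    push_cast
    have h5 : 0 < (n : ℝ) ^ 2 * Real.log T := by positivity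
    nlinarith [h1.trans h2]
  have hexpfin : Real.exp ((1 / 1000) * L ^ 2 / Real.log L) < (T : ℝ) ^ (7 * n ^ 2) := by
    rw [← Real.exp_log (show (0 : ℝ) < (T : ℝ) ^ (7 * n ^ 2) by positivity), Real.log_pow]
    exact Real.exp_lt_exp.mpr hfinal
  have hradpos : 0 < rad (a * b * c) := by
    unfold rad
    exact Finset.prod_pos fun p hp => (Nat.prime_of_mem_primeFactors hp).pos
  have hradR : (0 : ℝ) < rad (a * b * c) := by exact_mod_cast hradpos
  calc (rad (a * b * c) : ℝ) * Real.exp ((1 / 1000) * L ^ 2 / Real.log L)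
      < (rad (a * b * c) : ℝ) * (T : ℝ) ^ (7 * n ^ 2) := mul_lt_mul_of_pos_left hexpfin hradR
    _ = (T : ℝ) ^ (7 * n ^ 2) * (rad (a * b * c) : ℝ) := mul_comm _ _
    _ ≤ c := by exact_mod_cast hR2

end Pool.Agent.H70FM
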