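import Mathlib

/-!
A covering lemma: independent integer vectors, and the combinations of them whose first
coordinate vanishes.
-/

open Finset

namespace Pool.Agent.H70FM

theorem cover {n : ℕ} (V : Fin (n + 1) → Fin (n + 1) → ℤ)
    (hli : LinearIndependent ℚ (fun (r : Fin (n + 1)) (i : Fin (n + 1)) => ((V r i : ℤ) : ℚ)))
    (B : ℤ) (hB : ∀ r i, |V r i| ≤ B) (w : Fin (n + 1) → ℤ) (hw : w 0 = 0) :
    ∃ (r0 : Fin (n + 1)) (d : Fin (n + 1) → ℤ), ∀ i,
      |w i - ∑ r, d r * (V r0 0 * V r i - V r 0 * V r0 i)| ≤ 2 * (n + 1) * B ^ 2 := by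
  classical
  have hspan : ∀ x : Fin (n + 1) → ℚ, ∃ c : Fin (n + 1) → ℚ,
      ∀ i, ∑ r, c r * ((V r i : ℤ) : ℚ) = x i := by
    intro x
    have htop := hli.span_eq_top_of_card_eq_finrank' (by simp)
    have hx : x ∈ Submodule.span ℚ (Set.range
      (fun (r : Fin (n + 1)) (i : Fin (n + 1)) => ((V r i : ℤ) : ℚ))) := by
      rw [htop]; trivial
    obtain ⟨c, hc⟩ := (Submodule.mem_span_range_iff_exists_fun ℚ).mp hx
    refine ⟨c, fun i => ?_⟩
    have := congrFun hc i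
    simpa [Finset.sum_apply] using this
  obtain ⟨r0, hr0⟩ : ∃ r0 : Fin (n + 1), V r0 0 ≠ 0 := by
    by_contra hcon
    push Not at hcon
    obtain ⟨c, hc⟩ := hspan (fun _ => 1)
    have h0 := hc 0
    rw [Finset.sum_eq_zero] at h0
    · norm_num at h0
    · intro r _
      rw [hcon r]; simp
  obtain ⟨x, hx⟩ := hspan (fun i => (w i : ℚ))
  have hv0 : ((V r0 0 : ℤ) : ℚ) ≠ 0 := by exact_mod_cast hr0
  have hB0 : 0 ≤ B := (abs_nonneg _).trans (hB 0 0)
  refine ⟨r0, fun r => ⌊x r / (V r0 0 : ℚ)⌋, fun i => ?_⟩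
  have hE : ∀ r, |V r0 0 * V r i - V r 0 * V r0 i| ≤ 2 * B ^ 2 := by
    intro r
    calc |V r0 0 * V r i - V r 0 * V r0 i| ≤ |V r0 0 * V r i| + |V r 0 * V r0 i| := abs_sub _ _
      _ ≤ B * B + B * B := by
          rw [abs_mul, abs_mul]
          exact add_le_add (mul_le_mul (hB _ _) (hB _ _) (abs_nonneg _) hB0)
            (mul_le_mul (hB _ _) (hB _ _) (abs_nonneg _) hB0)
      _ = 2 * B ^ 2 := by ring
  have hkey : ((w i - ∑ r, ⌊x r / (V r0 0 : ℚ)⌋ * (V r0 0 * V r i - V r 0 * V r0 i) : ℤ) : ℚ) =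
      ∑ r, Int.fract (x r / (V r0 0 : ℚ)) * ((V r0 0 * V r i - V r 0 * V r0 i : ℤ) : ℚ) := by
    have h1 := hx i
    have h2 := hx 0
    simp only [hw, Int.cast_zero] at h2
    have h3 : ∑ r, (x r / (V r0 0 : ℚ)) * ((V r0 0 * V r i - V r 0 * V r0 i : ℤ) : ℚ) = w i := by
      have h4 : ∀ r, (x r / (V r0 0 : ℚ)) * ((V r0 0 * V r i - V r 0 * V r0 i : ℤ) : ℚ) =
          x r * V r i - (V r0 i / V r0 0 : ℚ) * (x r * V r 0) := by
        intro r
        push_cast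
        field_simp
      rw [Finset.sum_congr rfl fun r _ => h4 r, Finset.sum_sub_distrib, ← Finset.mul_sum, h1, h2]
      ring
    push_cast
    rw [← h3, ← Finset.sum_sub_distrib]
    refine Finset.sum_congr rfl fun r _ => ?_
    rw [Int.fract]
    push_cast
    ring
  have hfin : |((w i - ∑ r, ⌊x r / (V r0 0 : ℚ)⌋ * (V r0 0 * V r i - V r 0 * V r0 i) : ℤ) : ℚ)| ≤
      ((2 * (n + 1) * B ^ 2 : ℤ) : ℚ) := by
    rw [hkey]
    refine (Finset.abs_sum_le_sum_abs _ _).trans ?_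
    have hterm : ∀ r ∈ (Finset.univ : Finset (Fin (n + 1))),
        |Int.fract (x r / (V r0 0 : ℚ)) * ((V r0 0 * V r i - V r 0 * V r0 i : ℤ) : ℚ)| ≤
          ((2 * B ^ 2 : ℤ) : ℚ) := by
      intro r _
      rw [abs_mul, abs_of_nonneg (Int.fract_nonneg _)]
      have h5 : |((V r0 0 * V r i - V r 0 * V r0 i : ℤ) : ℚ)| ≤ ((2 * B ^ 2 : ℤ) : ℚ) := by
        exact_mod_cast hE r
      have h6 : Int.fract (x r / (V r0 0 : ℚ)) ≤ 1 := (Int.fract_lt_one _).le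
      calc Int.fract (x r / (V r0 0 : ℚ)) * |((V r0 0 * V r i - V r 0 * V r0 i : ℤ) : ℚ)|
          ≤ 1 * |((V r0 0 * V r i - V r 0 * V r0 i : ℤ) : ℚ)| :=
            mul_le_mul_of_nonneg_right h6 (abs_nonneg _)
        _ ≤ ((2 * B ^ 2 : ℤ) : ℚ) := by rw [one_mul]; exact h5
    refine (Finset.sum_le_sum hterm).trans (le_of_eq ?_)
    rw [Finset.sum_const, Finset.card_univ, Fintype.card_fin, nsmul_eq_mul]
    push_cast
    ring
  exact_mod_cast hfin

end Pool.Agent.H70FM
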