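import Pool.Agent.H70FM.Gen
import Pool.Agent.H70FM.Cover

/-!
Construction of a product of small exponents congruent to `a` modulo a high power of a prime.
-/

open Polynomial Finset

namespace Pool.Agent.H70FM

theorem prod_pow_congr (S : Finset ℕ) (m x : ℤ) (y : ℕ → ℤ) (k e : ℕ → ℕ)
    (h : ∀ i ∈ S, m ∣ x ^ (k i) - y i) :
    m ∣ x ^ (∑ i ∈ S, e i * k i) - ∏ i ∈ S, (y i) ^ (e i) := by
  classical
  induction S using Finset.induction_on with
  | empty => simp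
  | insert j S hj ih =>
    rw [Finset.sum_insert hj, Finset.prod_insert hj, pow_add]
    have h1 := ih (fun i hi => h i (Finset.mem_insert_of_mem hi))
    have h2 := h j (Finset.mem_insert_self j S)
    have h3 : m ∣ (x ^ k j) ^ e j - (y j) ^ e j := h2.trans (sub_dvd_pow_sub_pow _ _ _)
    rw [mul_comm (e j), pow_mul]
    obtain ⟨u, hu⟩ := h1
    obtain ⟨v, hv⟩ := h3
    refine ⟨(x ^ k j) ^ e j * u + v * ∏ i ∈ S, (y i) ^ (e i), ?_⟩
    linear_combination ((x ^ k j) ^ e j) * hu + (∏ i ∈ S, (y i) ^ (e i)) * hv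

theorem construct (a n l : ℕ) (ha : 1 ≤ a) (hn : 1 ≤ n) (hl : l.Prime) (hal : a < l)
    (hnl : 2 * n + 1 < l) :
    ∃ e : ℕ → ℕ,
      (∀ i ∈ Ico 1 (n + 1), ((e i : ℕ) : ℤ) ≤
        4 * (n + 1) * (108 * (1 + (a : ℤ) * n) ^ (16 * n + 2) * (l : ℤ) ^ 2) ^ 2) ∧
      (l : ℤ) ^ (2 * n + 2) ∣ (a + l) * ∏ i ∈ Ico 1 (n + 1), (1 + (a : ℤ) * i * l) ^ (e i) - a := by
  classical
  have hlp : Prime (l : ℤ) := Nat.prime_iff_prime_int.mp hl
  have hlpos : (0 : ℤ) < l := by exact_mod_cast hl.pos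
  have hl1 : (1 : ℤ) ≤ l := hlpos
  have hl2 : l ≠ 2 := by omega
  have hla : ¬ (l : ℤ) ∣ (a : ℤ) := by
    intro h
    have h1 : l ∣ a := by exact_mod_cast h
    exact absurd (Nat.le_of_dvd (by omega) h1) (by omega)
  obtain ⟨A0, A1, A2, hK, hA2, hA⟩ := exists_functional a n ha hn
  have hK' : Kills a n A0 A1 A2 := hK
  set N : ℕ := 2 * n + 2 with hN
  set V : ℕ → ℕ → ℤ := VZ a n A0 A1 A2 (l : ℤ) with hV
  set B : ℤ := 108 * (1 + (a : ℤ) * n) ^ (16 * n + 2) * (l : ℤ) ^ 2 with hB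
  have hBound : ∀ r i, r ≤ n → i ≤ n → |V r i| ≤ B := fun r i hr hi =>
    VZ_bound ha hA (l : ℤ) hl1 r i hr hi
  set M : ℤ := 2 * (n + 1) * B ^ 2 with hM
  have hM0 : 0 ≤ M := by positivity
  -- exponents of the bases
  have hkex : ∀ i : ℕ, ∃ k : ℕ, (l : ℤ) ^ N ∣ (1 + l * a) ^ k - (1 + (a : ℤ) * i * l) := by
    intro i
    exact gen l hl hl2 a hla (1 + (a : ℤ) * i * l) ⟨-(a * i), by ring⟩ (2 * n + 1)
  choose k hk using hkex
  -- the target
  have hcop : IsCoprime ((a : ℤ) + l) ((l : ℤ) ^ N) := by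
    refine IsCoprime.pow_right ?_
    rw [isCoprime_comm]
    refine (Prime.coprime_iff_not_dvd hlp).mpr ?_
    intro h
    exact hla ((dvd_add_left (dvd_refl (l : ℤ))).mp h)
  obtain ⟨p, q, hpq⟩ := hcop
  have hyl : (l : ℤ) ∣ 1 - p * a := by
    have h1 : (l : ℤ) ∣ a * (1 - p * a) := by
      refine ⟨a * p + a * q * (l : ℤ) ^ (2 * n + 1), ?_⟩
      have h2 : (l : ℤ) ^ N = (l : ℤ) ^ (2 * n + 1) * l := by rw [hN, pow_succ]
      rw [h2] at hpq
      linear_combination (-(a : ℤ)) * hpq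
    exact (hlp.dvd_or_dvd h1).resolve_left hla
  obtain ⟨k0, hk0⟩ := gen l hl hl2 a hla (p * a) hyl (2 * n + 1)
  -- the vector to be covered
  set w : Fin (n + 1) → ℤ := fun i =>
    if (i : ℕ) = 0 then 0 else if (i : ℕ) = 1 then (k0 : ℤ) - M else -M with hw
  have hw0 : w 0 = 0 := by simp [hw]
  have hli := VZ_indep ha hn hK' hA2 (l : ℤ) hlpos.ne'
  obtain ⟨r0, d, hd⟩ := cover (fun r i => V r i) hli B
    (fun r i => hBound r i (by omega) (by omega)) w hw0
  simp only [Fin.val_zero] at hd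
  set D : ℕ → ℤ := fun i => ∑ r : Fin (n + 1), d r * (V r0 0 * V r i - V r 0 * V r0 i) with hD
  -- exponents
  set f : ℕ → ℤ := fun i => (if i = 1 then (k0 : ℤ) else 0) - D i with hf
  have hfb : ∀ i ∈ Ico 1 (n + 1), 0 ≤ f i ∧ f i ≤ 2 * M := by
    intro i hi
    have hi' := Finset.mem_Ico.mp hi
    have h1 := hd ⟨i, hi'.2⟩
    have hwi : w ⟨i, hi'.2⟩ = (if i = 1 then (k0 : ℤ) else 0) - M := by
      simp only [hw]
      rw [if_neg (by omega)]
      split_ifs <;> ring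
    have h2 : |(if i = 1 then (k0 : ℤ) else 0) - M - D i| ≤ M := by
      have h3 : w ⟨i, hi'.2⟩ - ∑ r : Fin (n + 1), d r * (V r0 0 * V r i - V r 0 * V r0 i) =
          (if i = 1 then (k0 : ℤ) else 0) - M - D i := by rw [hwi]
      rw [← h3]; exact h1
    rw [abs_le] at h2
    simp only [hf]
    constructor <;> linarith [h2.1, h2.2]
  refine ⟨fun i => (f i).toNat, ?_, ?_⟩
  · intro i hi
    rw [Int.toNat_of_nonneg (hfb i hi).1]
    refine (hfb i hi).2.trans (le_of_eq ?_)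
    rw [hM]; ring
  · -- relation for the vectors
    have hrel : ∀ r ≤ n, (l : ℤ) ^ N ∣ ((N - 1).factorial : ℤ) * V r 0 +
        ∑ i ∈ Ico 1 (n + 1), V r i * LZ N (a * i * l) := fun r hr =>
      VZ_congr hK' (l : ℤ) r hr
    have hlog : ∀ i : ℕ, (l : ℤ) ^ N ∣ LZ N (a * i * l) - k i * LZ N (l * a) := by
      intro i
      have h1 : (l : ℤ) ^ N ∣ LZ N ((1 + l * a) ^ k i - 1) - LZ N (a * i * l) := by
        refine dvd_trans ?_ (LZ_congr N _ _)
        have := hk i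
        have e : (1 + (l : ℤ) * a) ^ k i - 1 - a * i * l =
          (1 + (l : ℤ) * a) ^ k i - (1 + (a : ℤ) * i * l) := by ring
        rw [e]; exact this
      have h2 : (l : ℤ) ^ N ∣ LZ N ((1 + l * a) ^ k i - 1) - k i * LZ N (l * a) := by
        refine dvd_trans ?_ (log_pow (2 * n + 1) (k i) ((l : ℤ) * a))
        rw [mul_pow]
        exact dvd_mul_right _ _
      have h3 := dvd_sub h2 h1
      have e : LZ N ((1 + l * a) ^ k i - 1) - k i * LZ N (l * a) -
        (LZ N ((1 + l * a) ^ k i - 1) - LZ N (a * i * l)) =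
        LZ N (a * i * l) - k i * LZ N (l * a) := by ring
      rwa [e] at h3
    -- relation with the discrete exponents
    have hrel2 : ∀ r ≤ n, (l : ℤ) ^ N ∣ ((N - 1).factorial : ℤ) * V r 0 +
        (∑ i ∈ Ico 1 (n + 1), V r i * k i) * LZ N (l * a) := by
      intro r hr
      have h1 := hrel r hr
      have h2 : (l : ℤ) ^ N ∣ ∑ i ∈ Ico 1 (n + 1),
          V r i * (LZ N (a * i * l) - k i * LZ N (l * a)) :=
        Finset.dvd_sum fun i _ => Dvd.dvd.mul_left (hlog i) _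
      have h3 := dvd_sub h1 h2
      have e : ((N - 1).factorial : ℤ) * V r 0 + ∑ i ∈ Ico 1 (n + 1), V r i * LZ N (a * i * l) -
          ∑ i ∈ Ico 1 (n + 1), V r i * (LZ N (a * i * l) - k i * LZ N (l * a)) =
          ((N - 1).factorial : ℤ) * V r 0 +
            (∑ i ∈ Ico 1 (n + 1), V r i * k i) * LZ N (l * a) := by
        rw [add_sub_assoc, ← Finset.sum_sub_distrib, Finset.sum_mul]
        congr 1
        refine Finset.sum_congr rfl fun i _ => ?_
        ring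
      rwa [e] at h3
    have hEk : ∀ r ≤ n, (l : ℤ) ^ (2 * n + 1) ∣
        ∑ i ∈ Ico 1 (n + 1), (V r0 0 * V r i - V r 0 * V r0 i) * k i := by
      intro r hr
      refine dvd_of_dvd_mul_LZ l hl (2 * n + 1) (by omega) hnl a hla _ ?_
      have h1 := Dvd.dvd.mul_left (hrel2 r hr) (V r0 0)
      have h2 := Dvd.dvd.mul_left (hrel2 r0 (by omega)) (V r 0)
      have h3 := dvd_sub h1 h2
      have e : V r0 0 * (((N - 1).factorial : ℤ) * V r 0 +
            (∑ i ∈ Ico 1 (n + 1), V r i * k i) * LZ N (l * a)) -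
          V r 0 * (((N - 1).factorial : ℤ) * V r0 0 +
            (∑ i ∈ Ico 1 (n + 1), V r0 i * k i) * LZ N (l * a)) =
          (∑ i ∈ Ico 1 (n + 1), (V r0 0 * V r i - V r 0 * V r0 i) * k i) * LZ N (l * a) := by
        have e2 : ∑ i ∈ Ico 1 (n + 1), (V r0 0 * V r i - V r 0 * V r0 i) * k i =
            V r0 0 * (∑ i ∈ Ico 1 (n + 1), V r i * k i) -
              V r 0 * (∑ i ∈ Ico 1 (n + 1), V r0 i * k i) := by
          rw [Finset.mul_sum, Finset.mul_sum, ← Finset.sum_sub_distrib]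
          refine Finset.sum_congr rfl fun i _ => ?_
          ring
        rw [e2]; ring
      rw [e] at h3
      exact h3
    have hDk : (l : ℤ) ^ (2 * n + 1) ∣ ∑ i ∈ Ico 1 (n + 1), D i * k i := by
      have e : ∑ i ∈ Ico 1 (n + 1), D i * k i =
          ∑ r : Fin (n + 1), d r *
            ∑ i ∈ Ico 1 (n + 1), (V r0 0 * V r i - V r 0 * V r0 i) * k i := by
        simp only [hD, Finset.sum_mul, Finset.mul_sum]
        rw [Finset.sum_comm]
        refine Finset.sum_congr rfl fun r _ => Finset.sum_congr rfl fun i _ => ?_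
        ring
      rw [e]
      exact Finset.dvd_sum fun r _ => Dvd.dvd.mul_left (hEk r (by omega)) _
    have hfk : (l : ℤ) ^ (2 * n + 1) ∣
        ((∑ i ∈ Ico 1 (n + 1), (f i).toNat * k i : ℕ) : ℤ) - ((k0 * k 1 : ℕ) : ℤ) := by
      have e : ((∑ i ∈ Ico 1 (n + 1), (f i).toNat * k i : ℕ) : ℤ) - ((k0 * k 1 : ℕ) : ℤ) =
          - ∑ i ∈ Ico 1 (n + 1), D i * k i := by
        push_cast
        have e1 : ∑ i ∈ Ico 1 (n + 1), (((f i).toNat : ℕ) : ℤ) * k i =
            ∑ i ∈ Ico 1 (n + 1), ((if i = 1 then (k0 : ℤ) * k i else 0) - D i * k i) := by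
          refine Finset.sum_congr rfl fun i hi => ?_
          rw [Int.toNat_of_nonneg (hfb i hi).1]
          simp only [hf]
          split_ifs <;> ring
        rw [e1, Finset.sum_sub_distrib, Finset.sum_ite_eq' (Ico 1 (n + 1)) 1]
        rw [if_pos (Finset.mem_Ico.mpr ⟨le_rfl, by omega⟩)]
        ring
      rw [e]
      exact (dvd_neg).mpr hDk
    have hpow := pow_congr l hl hl2 a hla (2 * n + 1) _ _ hfk
    have hprod := prod_pow_congr (Ico 1 (n + 1)) ((l : ℤ) ^ N) (1 + l * a)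
      (fun i => 1 + (a : ℤ) * i * l) k (fun i => (f i).toNat) (fun i _ => hk i)
    have h1 : (l : ℤ) ^ N ∣ (1 + (l : ℤ) * a) ^ (k0 * k 1) - (1 + (l : ℤ) * a) ^ k0 := by
      rw [mul_comm k0, pow_mul]
      have h2 := hk 1
      have e : (1 + (a : ℤ) * (1 : ℕ) * l) = 1 + (l : ℤ) * a := by push_cast; ring
      rw [e] at h2
      exact h2.trans (sub_dvd_pow_sub_pow _ _ _)
    -- combine
    obtain ⟨c1, hc1⟩ := hpow
    obtain ⟨c2, hc2⟩ := hprod
    obtain ⟨c3, hc3⟩ := h1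
    obtain ⟨c4, hc4⟩ := hk0
    have hN' : (l : ℤ) ^ (2 * n + 1 + 1) = (l : ℤ) ^ N := rfl
    rw [hN'] at hc1 hc4
    set P : ℤ := ∏ i ∈ Ico 1 (n + 1), (1 + (a : ℤ) * i * l) ^ (f i).toNat with hP
    refine ⟨(a + l) * (c1 - c2 + c3 + c4) - a * q, ?_⟩
    linear_combination ((a : ℤ) + l) * hc1 - ((a : ℤ) + l) * hc2 + ((a : ℤ) + l) * hc3 +
      ((a : ℤ) + l) * hc4 + (a : ℤ) * hpq

end Pool.Agent.H70FM
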