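import Pool.Agent.H70FM.Herm

/-!
The integer functional with triple nodes `0, a, 2a, ..., na` which kills polynomials of
degree at most `3n+1`, together with bounds for its coefficients.
-/

open Polynomial Finset

namespace Pool.Agent.H70FM

/-- bound for the coefficients of a product with a linear factor -/
theorem coeff_bound (f : ℤ[X]) (M T : ℤ) (hf : ∀ k, |f.coeff k| ≤ M) (d : ℤ) (hd : |d| ≤ T)
    (k : ℕ) : |((X + C d) * f).coeff k| ≤ (1 + T) * M := by
  have hM : 0 ≤ M := (abs_nonneg _).trans (hf 0)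
  have h1 : |C d * f |>.coeff k| ≤ T * M := by
    rw [coeff_C_mul, abs_mul]
    exact mul_le_mul hd (hf k) (abs_nonneg _) ((abs_nonneg _).trans hd)
  have h2 : |(X * f).coeff k| ≤ M := by
    cases k with
    | zero => rw [mul_coeff_zero, coeff_X_zero, zero_mul, abs_zero]; exact hM
    | succ k => rw [coeff_X_mul]; exact hf k
  rw [add_mul, coeff_add]
  calc |(X * f).coeff k + (C d * f).coeff k| ≤ |(X * f).coeff k| + |(C d * f).coeff k| :=
        abs_add_le _ _
    _ ≤ M + T * M := add_le_add h2 h1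
    _ = (1 + T) * M := by ring

theorem coeff_bound_prod (T : ℤ) (d : ℕ → ℤ) (s : Finset ℕ)
    (hs : ∀ j ∈ s, |d j| ≤ T) (k : ℕ) :
    |(∏ j ∈ s, (X + C (d j)) ^ 3).coeff k| ≤ (1 + T) ^ (3 * s.card) := by
  classical
  induction s using Finset.induction_on generalizing k with
  | empty =>
    rw [Finset.prod_empty, coeff_one]
    split_ifs <;> simp
  | insert j s hj ih =>
    rw [Finset.prod_insert hj, Finset.card_insert_of_notMem hj]
    have ih' := ih (fun i hi => hs i (Finset.mem_insert_of_mem hi))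
    have hdj := hs j (Finset.mem_insert_self j s)
    have h1 := coeff_bound _ _ _ ih' (d j) hdj
    have h2 := coeff_bound _ _ _ h1 (d j) hdj
    have h3 := coeff_bound _ _ _ h2 (d j) hdj k
    have e : (X + C (d j)) ^ 3 * ∏ j ∈ s, (X + C (d j)) ^ 3 =
        (X + C (d j)) * ((X + C (d j)) * ((X + C (d j)) * ∏ j ∈ s, (X + C (d j)) ^ 3)) := by
      ring
    rw [e]
    refine h3.trans (le_of_eq ?_)
    ring

/-- integer version of `fac` -/
noncomputable def facZ (a n i : ℕ) : ℤ[X] :=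
  ∏ j ∈ (range (n + 1)).erase i, (X - C ((a : ℤ) * j)) ^ 3

theorem facZ_map (a n i : ℕ) : (facZ a n i).map (Int.castRingHom ℚ) =
    fac (range (n + 1)) (fun j => (a : ℚ) * j) i := by
  unfold facZ fac
  rw [Polynomial.map_prod]
  refine Finset.prod_congr rfl fun j _ => ?_
  simp

theorem facZ_taylor (a n i : ℕ) : taylor ((a : ℤ) * i) (facZ a n i) =
    ∏ j ∈ (range (n + 1)).erase i, (X + C ((a : ℤ) * i - a * j)) ^ 3 := by
  unfold facZ
  rw [taylor_apply, Polynomial.prod_comp]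
  refine Finset.prod_congr rfl fun j _ => ?_
  rw [← taylor_apply, taylor_pow, map_sub, taylor_X, taylor_C, C_sub]
  ring

/-- Taylor coefficients of `facZ` at the missing node -/
noncomputable def pk (a n i k : ℕ) : ℤ := (taylor ((a : ℤ) * i) (facZ a n i)).coeff k

theorem pk_cast (a n i k : ℕ) :
    (pk a n i k : ℚ) = tc ((a : ℚ) * i) (fac (range (n + 1)) (fun j => (a : ℚ) * j) i) k := by
  unfold pk tc
  rw [← facZ_map]
  have h : ((a : ℚ) * i) = (Int.castRingHom ℚ) ((a : ℤ) * i) := by simp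
  rw [h, ← map_taylor, coeff_map]
  simp

theorem pk_bound (a n i k : ℕ) (hi : i ∈ range (n + 1)) :
    |pk a n i k| ≤ (1 + (a : ℤ) * n) ^ (3 * n) := by
  unfold pk
  rw [facZ_taylor]
  have hc : ((range (n + 1)).erase i).card = n := by
    rw [Finset.card_erase_of_mem hi]; simp
  have h := coeff_bound_prod ((a : ℤ) * n) (fun j => (a : ℤ) * i - a * j)
    ((range (n + 1)).erase i) ?_ k
  · rwa [hc] at h
  · intro j hj
    have hj' := Finset.mem_range.mp (Finset.mem_of_mem_erase hj)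
    have hi' := Finset.mem_range.mp hi
    rw [← mul_sub, abs_mul, abs_of_nonneg (by positivity : (0 : ℤ) ≤ a)]
    refine mul_le_mul_of_nonneg_left ?_ (by positivity)
    rw [abs_le]
    constructor <;> omega

theorem prod_diff_dvd (n i : ℕ) (hi : i ∈ range (n + 1)) :
    (∏ j ∈ (range (n + 1)).erase i, ((i : ℤ) - j)) ∣ (n.factorial : ℤ) := by
  have hi' : i ≤ n := by have := Finset.mem_range.mp hi; omega
  have hsplit : (range (n + 1)).erase i = range i ∪ Ico (i + 1) (n + 1) := by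
    ext j
    simp only [Finset.mem_erase, Finset.mem_range, Finset.mem_union, Finset.mem_Ico]
    omega
  have hdisj : Disjoint (range i) (Ico (i + 1) (n + 1)) := by
    rw [Finset.disjoint_left]
    intro j
    simp only [Finset.mem_range, Finset.mem_Ico]
    omega
  rw [hsplit, Finset.prod_union hdisj]
  have h1 : ∏ j ∈ range i, ((i : ℤ) - j) = (i.factorial : ℤ) := by
    rw [← Finset.prod_range_add_one_eq_factorial, ← Finset.prod_range_reflect]
    push_cast
    refine Finset.prod_congr rfl fun j hj => ?_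
    have := Finset.mem_range.mp hj
    have h2 : ((i - 1 - j : ℕ) : ℤ) = i - 1 - j := by omega
    rw [h2]; ring
  have h3 : ∏ j ∈ Ico (i + 1) (n + 1), ((i : ℤ) - j) ∣ ((n - i).factorial : ℤ) := by
    rw [Finset.prod_Ico_eq_prod_range]
    have h4 : n + 1 - (i + 1) = n - i := by omega
    rw [h4, ← Finset.prod_range_add_one_eq_factorial, Nat.cast_prod]
    refine Finset.prod_dvd_prod_of_dvd _ _ fun j _ => ?_
    exact ⟨-1, by push_cast; ring⟩
  rw [h1]
  refine (mul_dvd_mul_left _ h3).trans ?_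
  have h5 := Nat.factorial_mul_factorial_dvd_factorial hi'
  exact_mod_cast h5

theorem pk_zero (a n i : ℕ) :
    pk a n i 0 = ∏ j ∈ (range (n + 1)).erase i, ((a : ℤ) * i - a * j) ^ 3 := by
  unfold pk
  rw [facZ_taylor, coeff_zero_eq_eval_zero, eval_prod]
  simp

theorem pk_zero_dvd (a n i : ℕ) (hi : i ∈ range (n + 1)) :
    pk a n i 0 ∣ (((a : ℤ) ^ n * n.factorial) ^ 3) := by
  rw [pk_zero, Finset.prod_pow]
  refine pow_dvd_pow_of_dvd ?_ 3
  have h1 : ∏ j ∈ (range (n + 1)).erase i, ((a : ℤ) * i - a * j) =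
      (a : ℤ) ^ n * ∏ j ∈ (range (n + 1)).erase i, ((i : ℤ) - j) := by
    have hc : ((range (n + 1)).erase i).card = n := by
      rw [Finset.card_erase_of_mem hi]; simp
    have h2 : (a : ℤ) ^ n = ∏ _j ∈ (range (n + 1)).erase i, (a : ℤ) := by
      rw [Finset.prod_const, hc]
    rw [h2, ← Finset.prod_mul_distrib]
    refine Finset.prod_congr rfl fun j _ => ?_
    ring
  rw [h1]
  exact mul_dvd_mul_left _ (prod_diff_dvd n i hi)

theorem exists_functional (a n : ℕ) (ha : 1 ≤ a) (hn : 1 ≤ n) :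
    ∃ A0 A1 A2 : ℕ → ℤ,
      (∀ g : ℚ[X], g.natDegree ≤ 3 * n + 1 →
        ∑ i ∈ range (n + 1), ((A0 i : ℚ) * tc ((a : ℚ) * i) g 0 +
          A1 i * tc ((a : ℚ) * i) g 1 + A2 i * tc ((a : ℚ) * i) g 2) = 0) ∧
      (∀ i ∈ range (n + 1), A2 i ≠ 0) ∧
      (∀ i ∈ range (n + 1), |A0 i| ≤ 2 * (1 + (a : ℤ) * n) ^ (15 * n) ∧
        |A1 i| ≤ 2 * (1 + (a : ℤ) * n) ^ (15 * n) ∧
        |A2 i| ≤ 2 * (1 + (a : ℤ) * n) ^ (15 * n)) := by
  classical
  have hex : ∀ i : ℕ, ∃ m : ℤ, i ∈ range (n + 1) →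
      (((a : ℤ) ^ n * n.factorial) ^ 3) = pk a n i 0 * m := by
    intro i
    by_cases hi : i ∈ range (n + 1)
    · obtain ⟨m, hm⟩ := pk_zero_dvd a n i hi
      exact ⟨m, fun _ => hm⟩
    · exact ⟨0, fun h => absurd h hi⟩
  choose m hm using hex
  set D : ℤ := ((a : ℤ) ^ n * n.factorial) ^ 3 with hD
  have hDpos : 0 < D := by
    have := Nat.factorial_pos n
    positivity
  have hinj : Set.InjOn (fun j : ℕ => (a : ℚ) * j) (range (n + 1) : Finset ℕ) := by
    intro x _ y _ hxy
    have ha' : (a : ℚ) ≠ 0 := by positivity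
    have := mul_left_cancel₀ ha' hxy
    exact_mod_cast this
  refine ⟨fun i => ((pk a n i 1) ^ 2 - pk a n i 0 * pk a n i 2) * m i ^ 3,
    fun i => -(pk a n i 1) * D * m i ^ 2, fun i => D ^ 2 * m i, ?_, ?_, ?_⟩
  · intro g hg
    have h := hermite (range (n + 1)) (fun j => (a : ℚ) * j) hinj ⟨0, by simp⟩ g
      (by rw [Finset.card_range]; omega)
    rw [Finset.card_range, coeff_eq_zero_of_natDegree_lt (by omega)] at h
    have h2 : ∀ i ∈ range (n + 1), (((((pk a n i 1) ^ 2 - pk a n i 0 * pk a n i 2) * m i ^ 3 : ℤ)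
        : ℚ) * tc ((a : ℚ) * i) g 0 +
          ((-(pk a n i 1) * D * m i ^ 2 : ℤ) : ℚ) * tc ((a : ℚ) * i) g 1 +
          ((D ^ 2 * m i : ℤ) : ℚ) * tc ((a : ℚ) * i) g 2) =
          (D : ℚ) ^ 3 * lb2 (range (n + 1)) (fun j => (a : ℚ) * j) g i := by
      intro i hi
      have h0 := fac_tc_zero_ne (range (n + 1)) (fun j => (a : ℚ) * j) hinj hi
      unfold lb2 lb1 lb0
      simp only at h0 ⊢
      rw [← pk_cast] at h0
      simp only [← pk_cast]
      have hDm : (D : ℚ) = pk a n i 0 * m i := by exact_mod_cast hm i hi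
      push_cast
      rw [hDm]
      field_simp
      ring
    rw [Finset.sum_congr rfl h2, ← Finset.mul_sum, ← h, mul_zero]
  · intro i hi
    have h1 := hm i hi
    have h2 : m i ≠ 0 := by
      intro h0
      rw [h0, mul_zero] at h1
      omega
    positivity
  · intro i hi
    have h1 := hm i hi
    have hp0 : pk a n i 0 ≠ 0 := by
      intro h0
      rw [h0, zero_mul] at h1
      omega
    have hmD : |m i| ≤ D := by
      have h3 : 1 ≤ |pk a n i 0| := Int.one_le_abs hp0
      have h4 : D = |pk a n i 0| * |m i| := by rw [← abs_mul, ← h1, abs_of_pos hDpos]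
      have h5 : 0 ≤ |m i| := abs_nonneg _
      nlinarith
    set T : ℤ := 1 + (a : ℤ) * n with hT
    have hT1 : 1 ≤ T := by
      rw [hT]
      have : (0 : ℤ) ≤ (a : ℤ) * n := by positivity
      linarith
    have hDT : D ≤ T ^ (3 * n) := by
      rw [hD, mul_comm 3 n, pow_mul]
      refine pow_le_pow_left₀ (by positivity) ?_ 3
      have h6 : ((n.factorial : ℕ) : ℤ) ≤ (n : ℤ) ^ n := by exact_mod_cast Nat.factorial_le_pow n
      calc (a : ℤ) ^ n * n.factorial ≤ (a : ℤ) ^ n * (n : ℤ) ^ n :=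
            mul_le_mul_of_nonneg_left h6 (by positivity)
        _ = ((a : ℤ) * n) ^ n := by rw [mul_pow]
        _ ≤ T ^ n := pow_le_pow_left₀ (by positivity) (by rw [hT]; linarith) n
    have hb := pk_bound a n i
    set W : ℤ := T ^ (3 * n) with hW
    have hW1 : 1 ≤ W := one_le_pow₀ hT1
    have hW15 : T ^ (15 * n) = W ^ 5 := by rw [hW, ← pow_mul]; congr 1; ring
    have hmW : |m i| ≤ W := hmD.trans hDT
    have hDabs : |D| ≤ W := by rw [abs_of_pos hDpos]; exact hDT
    have b0 := hb 0 hi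
    have b1 := hb 1 hi
    have b2 := hb 2 hi
    have n0 := abs_nonneg (m i)
    have hW0 : 0 ≤ W := by linarith
    rw [hW15]
    refine ⟨?_, ?_, ?_⟩
    · rw [abs_mul, abs_pow]
      have h7 : |(pk a n i 1) ^ 2 - pk a n i 0 * pk a n i 2| ≤ 2 * W ^ 2 := by
        calc |(pk a n i 1) ^ 2 - pk a n i 0 * pk a n i 2|
            ≤ |(pk a n i 1) ^ 2| + |pk a n i 0 * pk a n i 2| := abs_sub _ _
          _ ≤ W ^ 2 + W * W := by
              refine add_le_add ?_ ?_
              · rw [abs_pow]; exact pow_le_pow_left₀ (abs_nonneg _) b1 2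
              · rw [abs_mul]; exact mul_le_mul b0 b2 (abs_nonneg _) hW0
          _ = 2 * W ^ 2 := by ring
      calc |(pk a n i 1) ^ 2 - pk a n i 0 * pk a n i 2| * |m i| ^ 3 ≤ (2 * W ^ 2) * W ^ 3 :=
            mul_le_mul h7 (pow_le_pow_left₀ n0 hmW 3) (by positivity) (by positivity)
        _ = 2 * W ^ 5 := by ring
    · rw [abs_mul, abs_mul, abs_neg, abs_pow (m i) 2]
      calc |pk a n i 1| * |D| * |m i| ^ 2 ≤ (W * W) * W ^ 2 :=
            mul_le_mul (mul_le_mul b1 hDabs (abs_nonneg _) hW0) (pow_le_pow_left₀ n0 hmW 2)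
              (by positivity) (by positivity)
        _ = W ^ 4 := by ring
        _ ≤ W ^ 5 := pow_le_pow_right₀ hW1 (by norm_num)
        _ ≤ 2 * W ^ 5 := by nlinarith [pow_nonneg hW0 5]
    · rw [abs_mul, abs_pow D 2]
      calc |D| ^ 2 * |m i| ≤ W ^ 2 * W :=
            mul_le_mul (pow_le_pow_left₀ (abs_nonneg _) hDabs 2) hmW (abs_nonneg _) (by positivity)
        _ = W ^ 3 := by ring
        _ ≤ W ^ 5 := pow_le_pow_right₀ hW1 (by norm_num)
        _ ≤ 2 * W ^ 5 := by nlinarith [pow_nonneg hW0 5]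

end Pool.Agent.H70FM
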