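import Pool.Agent.H70FM.Vec

/-!
The group of residues congruent to `1` modulo a prime, and the truncated logarithm on it.
-/

open Polynomial Finset

namespace Pool.Agent.H70FM

theorem one_add_pow_sub (z : ℤ) (j : ℕ) : z ^ 2 ∣ (1 + z) ^ j - 1 - j * z := by
  induction j with
  | zero => simp
  | succ j ih =>
    obtain ⟨w, hw⟩ := ih
    refine ⟨w * (1 + z) + j, ?_⟩
    have : (1 + z) ^ j = 1 + j * z + z ^ 2 * w := by linarith
    rw [pow_succ, this]
    push_cast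
    ring

theorem pow_step (l : ℕ) (hl : l.Prime) (hl2 : l ≠ 2) (u : ℤ) (hu : ¬ (l : ℤ) ∣ u) (k : ℕ) :
    ∃ w : ℤ, ¬ (l : ℤ) ∣ w ∧ (1 + l * u) ^ (l ^ k) = 1 + (l : ℤ) ^ (k + 1) * w := by
  have hlp : Prime (l : ℤ) := Nat.prime_iff_prime_int.mp hl
  have hl1 : Odd l := hl.odd_of_ne_two hl2
  have hnd : ¬ (l : ℤ) ∣ (1 + l * u) := by
    intro h
    have h2 : (l : ℤ) ∣ 1 := (dvd_add_left (dvd_mul_right _ _)).mp h
    exact hlp.not_isUnit (isUnit_of_dvd_one h2)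
  have h := Int.emultiplicity_pow_sub_pow hl hl1 (x := 1 + l * u) (y := 1)
    (by rw [add_sub_cancel_left]; exact dvd_mul_right _ _) hnd (l ^ k)
  rw [one_pow] at h
  have h1 : emultiplicity (l : ℤ) (1 + l * u - 1) = 1 := by
    rw [add_sub_cancel_left]
    have : emultiplicity (l : ℤ) ((l : ℤ) * u) = ((1 : ℕ) : ℕ∞) := by
      rw [emultiplicity_eq_coe]
      refine ⟨by rw [pow_one]; exact dvd_mul_right _ _, ?_⟩
      rw [pow_succ, pow_one]
      intro h3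
      exact hu (Int.dvd_of_mul_dvd_mul_left hlp.ne_zero h3)
    simpa using this
  have h2 : emultiplicity l (l ^ k) = k := by
    exact emultiplicity_pow_self_of_prime hl.prime k
  rw [h1, h2] at h
  have h3 : emultiplicity (l : ℤ) ((1 + l * u) ^ (l ^ k) - 1) = ((k + 1 : ℕ) : ℕ∞) := by
    rw [h]; push_cast; ring
  rw [emultiplicity_eq_coe] at h3
  obtain ⟨⟨w, hw⟩, h4⟩ := h3
  refine ⟨w, ?_, by linarith⟩
  intro h5
  refine h4 ?_
  rw [hw, pow_succ (l : ℤ) (k + 1)]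
  exact mul_dvd_mul_left _ h5

theorem gen (l : ℕ) (hl : l.Prime) (hl2 : l ≠ 2) (u : ℤ) (hu : ¬ (l : ℤ) ∣ u) (y : ℤ)
    (hy : (l : ℤ) ∣ 1 - y) (N : ℕ) : ∃ k : ℕ, (l : ℤ) ^ (N + 1) ∣ (1 + l * u) ^ k - y := by
  have hlp : Prime (l : ℤ) := Nat.prime_iff_prime_int.mp hl
  induction N with
  | zero => exact ⟨0, by simpa using hy⟩
  | succ N ih =>
    obtain ⟨k, d, hd⟩ := ih
    obtain ⟨w, hw, hpow⟩ := pow_step l hl hl2 u hu N
    have hnd : ¬ (l : ℤ) ∣ (1 + l * u) := by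
      intro h
      have h2 : (l : ℤ) ∣ 1 := (dvd_add_left (dvd_mul_right _ _)).mp h
      exact hlp.not_isUnit (isUnit_of_dvd_one h2)
    set c : ℤ := w * (1 + l * u) ^ k with hc
    have hcl : ¬ (l : ℤ) ∣ c := by
      intro h
      rcases hlp.dvd_or_dvd h with h1 | h1
      · exact hw h1
      · exact hnd (hlp.dvd_of_dvd_pow h1)
    -- solve `l ∣ d + j c`
    have hcop : IsCoprime (l : ℤ) c := (Prime.coprime_iff_not_dvd hlp).mpr hcl
    obtain ⟨p, q, hpq⟩ := hcop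
    -- q c = 1 - p l
    set j : ℕ := (-(d * q) % l).toNat with hj
    have hlpos : (0 : ℤ) < l := by exact_mod_cast hl.pos
    have hjz : (j : ℤ) = -(d * q) % l := Int.toNat_of_nonneg (Int.emod_nonneg _ hlpos.ne')
    have hj2 : (l : ℤ) ∣ (j : ℤ) + d * q := by
      rw [hjz]
      have := Int.emod_add_mul_ediv (-(d * q)) l
      refine ⟨-((-(d * q)) / l), ?_⟩
      linarith
    have hdj : (l : ℤ) ∣ d + j * c := by
      obtain ⟨r, hr⟩ := hj2
      refine ⟨r * c + d * p, ?_⟩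
      have : (j : ℤ) = l * r - d * q := by linarith
      rw [this]
      linear_combination (-d) * hpq
    refine ⟨k + l ^ N * j, ?_⟩
    have hpw : (1 + (l : ℤ) * u) ^ (k + l ^ N * j) =
        (1 + l * u) ^ k * (1 + (l : ℤ) ^ (N + 1) * w) ^ j := by
      rw [pow_add, pow_mul, hpow]
    rw [hpw]
    obtain ⟨v, hv⟩ := one_add_pow_sub ((l : ℤ) ^ (N + 1) * w) j
    obtain ⟨r, hr⟩ := hdj
    refine ⟨r + (1 + l * u) ^ k * (l : ℤ) ^ N * w ^ 2 * v, ?_⟩
    have e1 : (1 + (l : ℤ) ^ (N + 1) * w) ^ j =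
        1 + j * ((l : ℤ) ^ (N + 1) * w) + ((l : ℤ) ^ (N + 1) * w) ^ 2 * v := by linarith
    rw [e1]
    have e2 : (1 + l * u) ^ k = y + (l : ℤ) ^ (N + 1) * d := by linarith
    have e3 : d = l * r - j * c := by linarith
    have e4 : (l : ℤ) ^ (N + 1) * d = (l : ℤ) ^ (N + 1) * (l * r - j * (w * (1 + l * u) ^ k)) := by
      rw [e3, hc]
    generalize hX : (1 + (l : ℤ) * u) ^ k = X at *
    have e5 : X = y + (l : ℤ) ^ (N + 1) * (l * r - j * (w * X)) := by rw [← e4]; exact e2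
    have e6 : (l : ℤ) ^ (N + 1 + 1) = (l : ℤ) ^ (N + 1) * l := pow_succ _ _
    have e7 : (l : ℤ) ^ (N + 1) = (l : ℤ) ^ N * l := pow_succ _ _
    rw [e6]
    rw [e7] at e5 ⊢
    linear_combination e5

/-- `x ^ A ≡ x ^ B` when `l ^ N ∣ A - B` -/
theorem pow_congr (l : ℕ) (hl : l.Prime) (hl2 : l ≠ 2) (u : ℤ) (hu : ¬ (l : ℤ) ∣ u) (N : ℕ)
    (A B : ℕ) (h : (l : ℤ) ^ N ∣ (A : ℤ) - B) :
    (l : ℤ) ^ (N + 1) ∣ (1 + l * u) ^ A - (1 + l * u) ^ B := by
  wlog hAB : B ≤ A generalizing A B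
  · have h1 := this B A (by rw [← dvd_neg, neg_sub]; exact h) (by omega)
    rw [← dvd_neg, neg_sub]; exact h1
  obtain ⟨w, hw, hpow⟩ := pow_step l hl hl2 u hu N
  obtain ⟨c, hc⟩ := h
  have hlpos : (0 : ℤ) < (l : ℤ) ^ N := by
    have : (0 : ℤ) < l := by exact_mod_cast hl.pos
    positivity
  have hc0 : 0 ≤ c := by
    by_contra hneg
    have h2 : (l : ℤ) ^ N * c < 0 := mul_neg_of_pos_of_neg hlpos (by linarith)
    have h3 : (0 : ℤ) ≤ (A : ℤ) - B := by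
      have : (B : ℤ) ≤ A := by exact_mod_cast hAB
      linarith
    linarith
  obtain ⟨m, rfl⟩ := Int.eq_ofNat_of_zero_le hc0
  have hA : A = B + l ^ N * m := by
    have : (A : ℤ) = B + (l : ℤ) ^ N * m := by linarith
    exact_mod_cast this
  have hpw : (1 + (l : ℤ) * u) ^ (B + l ^ N * m) =
      (1 + l * u) ^ B * (1 + (l : ℤ) ^ (N + 1) * w) ^ m := by
    rw [pow_add, pow_mul, hpow]
  rw [hA, hpw]
  obtain ⟨v, hv⟩ := one_add_pow_sub ((l : ℤ) ^ (N + 1) * w) m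
  have e1 : (1 + (l : ℤ) ^ (N + 1) * w) ^ m =
      1 + m * ((l : ℤ) ^ (N + 1) * w) + ((l : ℤ) ^ (N + 1) * w) ^ 2 * v := by linarith
  rw [e1]
  refine ⟨(1 + l * u) ^ B * (m * w + (l : ℤ) ^ (N + 1) * w ^ 2 * v), ?_⟩
  ring

/-! ### The truncated logarithm -/

theorem lgZ_one_eval (N : ℕ) (y : ℤ) : (lgZ N 1).eval y = LZ N y := by
  rw [lgZ_eval, one_mul]

theorem LZ_congr (N : ℕ) (y y' : ℤ) : y - y' ∣ LZ N y - LZ N y' := by
  rw [← lgZ_one_eval, ← lgZ_one_eval]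
  exact Polynomial.sub_dvd_eval_sub y y' _

theorem lgZ_deriv (M : ℕ) : (1 + X) * derivative (lgZ (M + 1) 1) =
    C ((M.factorial : ℕ) : ℤ) * (1 - (-X) ^ M) := by
  have h1 : derivative (lgZ (M + 1) 1) = C ((M.factorial : ℕ) : ℤ) * ∑ j ∈ range M, (-X) ^ j := by
    unfold lgZ
    rw [derivative_sum, Finset.sum_range_succ', if_pos rfl, monomial_zero_right, derivative_zero,
      add_zero, Finset.mul_sum]
    refine Finset.sum_congr rfl fun j hj => ?_
    have hj' := Finset.mem_range.mp hj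
    rw [if_neg (by omega), derivative_monomial, Nat.add_sub_cancel, Nat.add_sub_cancel]
    have hdvd : (j + 1) ∣ M.factorial := Nat.dvd_factorial (by omega) (by omega)
    have h2 : (((M.factorial / (j + 1) : ℕ) : ℤ)) * ((j + 1 : ℕ) : ℤ) = (M.factorial : ℤ) := by
      exact_mod_cast Nat.div_mul_cancel hdvd
    have h3 : (-1 : ℤ) ^ (j + 1 + 1) * ((M.factorial / (j + 1) : ℕ) : ℤ) * 1 ^ (j + 1) *
        ((j + 1 : ℕ) : ℤ) = (-1) ^ j * (M.factorial : ℤ) := by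
      rw [← h2]; ring
    have h4 : (-X : ℤ[X]) ^ j = (-1) ^ j * X ^ j := neg_pow X j
    rw [h3, h4, ← C_mul_X_pow_eq_monomial, C_mul, C_pow, C_neg, C_1]
    ring
  have h2 := geom_sum_mul_neg (-X : ℤ[X]) M
  rw [h1]
  calc (1 + X) * (C ((M.factorial : ℕ) : ℤ) * ∑ j ∈ range M, (-X) ^ j)
      = C ((M.factorial : ℕ) : ℤ) * ((∑ j ∈ range M, (-X) ^ j) * (1 - (-X))) := by ring
    _ = _ := by rw [h2]

theorem log_pow (M k : ℕ) (y : ℤ) :
    y ^ (M + 1) ∣ LZ (M + 1) ((1 + y) ^ k - 1) - k * LZ (M + 1) y := by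
  set L : ℤ[X] := lgZ (M + 1) 1 with hL
  set T : ℤ[X] := (1 + X) ^ k - 1 with hT
  set G : ℤ[X] := L.comp T - C (k : ℤ) * L with hG
  have hXT : (X : ℤ[X]) ∣ T := by
    rw [X_dvd_iff, hT, coeff_zero_eq_eval_zero]
    simp
  have hd : (1 + X) * derivative G = C (k : ℤ) * C ((M.factorial : ℕ) : ℤ) * ((-X) ^ M - (-T) ^ M) := by
    have h1 := lgZ_deriv M
    have h2 := congrArg (fun f : ℤ[X] => f.comp T) h1
    simp only [mul_comp, add_comp, one_comp, X_comp, C_comp, sub_comp, pow_comp, neg_comp] at h2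
    rw [hG, derivative_sub, derivative_comp, derivative_C_mul]
    have h3 : derivative T = C (k : ℤ) * (1 + X) ^ (k - 1) := by
      rw [hT, derivative_sub, derivative_one, sub_zero, derivative_pow]
      simp
    rw [h3]
    rcases k with _ | k
    · simp [hT]
    · rw [Nat.add_sub_cancel]
      have h4 : (1 : ℤ[X]) + T = (1 + X) ^ (k + 1) := by rw [hT]; ring
      rw [h4] at h2
      rw [← hL] at h1 h2
      linear_combination (C ((k + 1 : ℕ) : ℤ)) * h2 - (C ((k + 1 : ℕ) : ℤ)) * h1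
  have hXM : (X : ℤ[X]) ^ M ∣ derivative G := by
    have h1 : (X : ℤ[X]) ^ M ∣ (1 + X) * derivative G := by
      rw [hd]
      refine Dvd.dvd.mul_left (dvd_sub ?_ ?_) _
      · exact pow_dvd_pow_of_dvd (by rw [dvd_neg]) M
      · exact pow_dvd_pow_of_dvd (by rw [dvd_neg]; exact hXT) M
    have h2 : IsCoprime ((X : ℤ[X]) ^ M) (1 + X) := by
      refine IsCoprime.pow_left ⟨-1, 1, by ring⟩
    exact h2.dvd_of_dvd_mul_left h1
  have hXG : (X : ℤ[X]) ^ (M + 1) ∣ G := by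
    rw [X_pow_dvd_iff] at hXM ⊢
    intro s hs
    rcases s with _ | s
    · rw [coeff_zero_eq_eval_zero, hG]
      simp only [eval_sub, eval_mul, eval_C, eval_comp]
      have h1 : T.eval 0 = 0 := by rw [hT]; simp
      rw [h1, hL, lgZ_one_eval, LZ_zero]; ring
    · have h1 := hXM s (by omega)
      rw [coeff_derivative] at h1
      rcases mul_eq_zero.mp h1 with h2 | h2
      · exact h2
      · exfalso
        have : (0 : ℤ) < (s : ℤ) + 1 := by positivity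
        omega
  obtain ⟨W, hW⟩ := hXG
  have hev : G.eval y = LZ (M + 1) ((1 + y) ^ k - 1) - k * LZ (M + 1) y := by
    rw [hG]
    simp only [eval_sub, eval_mul, eval_C, eval_comp]
    rw [hL, lgZ_one_eval, lgZ_one_eval, hT]
    simp
  rw [← hev, hW]
  simp only [eval_mul, eval_pow, eval_X]
  exact dvd_mul_right _ _

theorem LZ_unit (l : ℕ) (hl : l.Prime) (M : ℕ) (hM : 1 ≤ M) (hlM : M < l) (u : ℤ)
    (hu : ¬ (l : ℤ) ∣ u) : ∃ v : ℤ, ¬ (l : ℤ) ∣ v ∧ LZ (M + 1) (l * u) = l * v := by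
  have hlp : Prime (l : ℤ) := Nat.prime_iff_prime_int.mp hl
  have hsplit : LZ (M + 1) (l * u) = (M.factorial : ℤ) * (l * u) +
      ∑ s ∈ Ico 2 (M + 1), (if s = 0 then 0 else
        (-1) ^ (s + 1) * (((M + 1 - 1).factorial / s : ℕ) : ℤ) * (l * u) ^ s) := by
    unfold LZ
    rw [Finset.range_eq_Ico, Finset.sum_eq_sum_Ico_succ_bot (by omega),
      Finset.sum_eq_sum_Ico_succ_bot (by omega)]
    simp
  have h2 : (l : ℤ) ^ 2 ∣ ∑ s ∈ Ico 2 (M + 1), (if s = 0 then 0 else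
        (-1) ^ (s + 1) * (((M + 1 - 1).factorial / s : ℕ) : ℤ) * (l * u) ^ s) := by
    refine Finset.dvd_sum fun s hs => ?_
    have hs' := Finset.mem_Ico.mp hs
    rw [if_neg (by omega)]
    refine Dvd.dvd.mul_left ?_ _
    rw [mul_pow]
    exact Dvd.dvd.mul_right (pow_dvd_pow _ hs'.1) _
  obtain ⟨c, hc⟩ := h2
  refine ⟨(M.factorial : ℤ) * u + l * c, ?_, ?_⟩
  · intro h
    have h3 : (l : ℤ) ∣ (M.factorial : ℤ) * u := (dvd_add_left (dvd_mul_right _ _)).mp h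
    rcases hlp.dvd_or_dvd h3 with h4 | h4
    · have h5 : l ∣ M.factorial := by exact_mod_cast h4
      have := (Nat.Prime.dvd_factorial hl).mp h5
      omega
    · exact hu h4
  · rw [hsplit, hc]; ring

theorem dvd_of_dvd_mul_LZ (l : ℕ) (hl : l.Prime) (M : ℕ) (hM : 1 ≤ M) (hlM : M < l) (u : ℤ)
    (hu : ¬ (l : ℤ) ∣ u) (m : ℤ) (h : (l : ℤ) ^ (M + 1) ∣ m * LZ (M + 1) (l * u)) :
    (l : ℤ) ^ M ∣ m := by
  have hlp : Prime (l : ℤ) := Nat.prime_iff_prime_int.mp hl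
  obtain ⟨v, hv, hLv⟩ := LZ_unit l hl M hM hlM u hu
  rw [hLv, pow_succ] at h
  have h1 : (l : ℤ) ^ M ∣ m * v := by
    have h2 : (l : ℤ) ^ M * l ∣ (m * v) * l := by
      have : m * (l * v) = (m * v) * l := by ring
      rwa [this] at h
    exact Int.dvd_of_mul_dvd_mul_right hlp.ne_zero h2
  have hcop : IsCoprime ((l : ℤ) ^ M) v :=
    IsCoprime.pow_left ((Prime.coprime_iff_not_dvd hlp).mpr hv)
  exact hcop.dvd_of_dvd_mul_right h1

end Pool.Agent.H70FM
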