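import Mathlib

/-!
The functional of Hermite interpolation with triple nodes, and integer values of it.
-/

open Polynomial Finset

namespace Pool.Agent.H70FM

/-- product of the cubes of the other linear factors -/
noncomputable def fac (S : Finset ℕ) (t : ℕ → ℚ) (i : ℕ) : ℚ[X] :=
  ∏ j ∈ S.erase i, (X - C (t j)) ^ 3

theorem fac_monic (S : Finset ℕ) (t : ℕ → ℚ) (i : ℕ) : (fac S t i).Monic :=
  monic_prod_of_monic _ _ fun _ _ => (monic_X_sub_C _).pow 3

theorem fac_natDegree (S : Finset ℕ) (t : ℕ → ℚ) {i : ℕ} (hi : i ∈ S) :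
    (fac S t i).natDegree = 3 * (S.card - 1) := by
  unfold fac
  rw [natDegree_prod_of_monic _ _ fun _ _ => (monic_X_sub_C _).pow 3]
  rw [Finset.sum_congr rfl (fun j _ => by rw [natDegree_pow, natDegree_X_sub_C])]
  rw [Finset.sum_const, Finset.card_erase_of_mem hi]
  simp [mul_comm]

/-- `k`-th Taylor coefficient at a point -/
noncomputable def tc (t : ℚ) (g : ℚ[X]) (k : ℕ) : ℚ := (taylor t g).coeff k

theorem fac_tc_zero_ne (S : Finset ℕ) (t : ℕ → ℚ) (ht : Set.InjOn t S) {i : ℕ} (hi : i ∈ S) :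
    tc (t i) (fac S t i) 0 ≠ 0 := by
  unfold tc fac
  rw [taylor_coeff_zero, eval_prod]
  refine Finset.prod_ne_zero_iff.mpr fun j hj => ?_
  rw [eval_pow, eval_sub, eval_X, eval_C]
  have hj' := Finset.mem_erase.mp hj
  refine pow_ne_zero 3 (sub_ne_zero.mpr fun h => hj'.1 ?_)
  exact (ht hi hj'.2 h).symm

/-- the three local coefficients of the interpolating polynomial -/
noncomputable def lb0 (S : Finset ℕ) (t : ℕ → ℚ) (g : ℚ[X]) (i : ℕ) : ℚ :=
  tc (t i) g 0 / tc (t i) (fac S t i) 0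

noncomputable def lb1 (S : Finset ℕ) (t : ℕ → ℚ) (g : ℚ[X]) (i : ℕ) : ℚ :=
  (tc (t i) g 1 - tc (t i) (fac S t i) 1 * lb0 S t g i) / tc (t i) (fac S t i) 0

noncomputable def lb2 (S : Finset ℕ) (t : ℕ → ℚ) (g : ℚ[X]) (i : ℕ) : ℚ :=
  (tc (t i) g 2 - tc (t i) (fac S t i) 1 * lb1 S t g i - tc (t i) (fac S t i) 2 * lb0 S t g i) /
    tc (t i) (fac S t i) 0

/-- the local quadratic polynomial -/
noncomputable def lq (S : Finset ℕ) (t : ℕ → ℚ) (g : ℚ[X]) (i : ℕ) : ℚ[X] :=
  C (lb0 S t g i) + C (lb1 S t g i) * (X - C (t i)) + C (lb2 S t g i) * (X - C (t i)) ^ 2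

theorem lq_taylor (S : Finset ℕ) (t : ℕ → ℚ) (g : ℚ[X]) (i : ℕ) :
    taylor (t i) (lq S t g i) =
      C (lb0 S t g i) + C (lb1 S t g i) * X + C (lb2 S t g i) * X ^ 2 := by
  unfold lq
  rw [map_add, map_add, taylor_mul, taylor_mul, taylor_pow, map_sub, taylor_C, taylor_C,
    taylor_C, taylor_X, taylor_C]
  simp

theorem local_dvd (S : Finset ℕ) (t : ℕ → ℚ) (ht : Set.InjOn t S) (g : ℚ[X]) {i : ℕ}
    (hi : i ∈ S) : (X - C (t i)) ^ 3 ∣ g - fac S t i * lq S t g i := by
  rw [X_sub_C_pow_dvd_iff, ← taylor_apply, map_sub, taylor_mul, lq_taylor, X_pow_dvd_iff]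
  have h0 := fac_tc_zero_ne S t ht hi
  have e0 : (taylor (t i) g).coeff 0 = tc (t i) g 0 := rfl
  have e1 : (taylor (t i) g).coeff 1 = tc (t i) g 1 := rfl
  have e2 : (taylor (t i) g).coeff 2 = tc (t i) g 2 := rfl
  have f0 : (taylor (t i) (fac S t i)).coeff 0 = tc (t i) (fac S t i) 0 := rfl
  have f1 : (taylor (t i) (fac S t i)).coeff 1 = tc (t i) (fac S t i) 1 := rfl
  have f2 : (taylor (t i) (fac S t i)).coeff 2 = tc (t i) (fac S t i) 2 := rfl
  generalize taylor (t i) (fac S t i) = F at *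
  generalize taylor (t i) g = G at *
  have hF : ∀ (b0 b1 b2 : ℚ), F * (C b0 + C b1 * X + C b2 * X ^ 2) =
      C b0 * F + C b1 * (F * X) + C b2 * (F * X ^ 2) := by intro b0 b1 b2; ring
  rw [hF]
  intro d hd
  interval_cases d
  · simp only [coeff_sub, coeff_add, mul_coeff_zero, coeff_X_zero, mul_zero,
      coeff_X_pow]
    rw [e0, f0, lb0]
    simp only [coeff_C_zero]
    rw [div_mul_cancel₀ _ h0]
    simp
  · have h2 : (F * X ^ 2).coeff 1 = 0 := by
      rw [coeff_mul_X_pow', if_neg (by norm_num)]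
    simp only [coeff_sub, coeff_add, coeff_C_mul, coeff_mul_X, h2, mul_zero]
    rw [e1, f0, f1, lb1, div_mul_cancel₀ _ h0]
    ring
  · have h2 : (F * X ^ 2).coeff 2 = F.coeff 0 := coeff_mul_X_pow F 2 0
    have h3 : (F * X).coeff 2 = F.coeff 1 := coeff_mul_X F 1
    simp only [coeff_sub, coeff_add, coeff_C_mul, h2, h3]
    rw [e2, f0, f1, f2, lb2, div_mul_cancel₀ _ h0]
    ring

theorem hermite (S : Finset ℕ) (t : ℕ → ℚ) (ht : Set.InjOn t S) (hS : S.Nonempty) (g : ℚ[X])
    (hg : g.natDegree < 3 * S.card) :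
    g.coeff (3 * S.card - 1) = ∑ i ∈ S, lb2 S t g i := by
  have hc : 1 ≤ S.card := Finset.card_pos.mpr hS
  set G : ℚ[X] := ∑ i ∈ S, fac S t i * lq S t g i with hG
  have hdeg2 : ∀ i, (lq S t g i).natDegree ≤ 2 := by
    intro i
    unfold lq
    refine (natDegree_add_le _ _).trans (max_le ((natDegree_add_le _ _).trans (max_le ?_ ?_)) ?_)
    · simp
    · refine (natDegree_C_mul_le _ _).trans ?_
      rw [natDegree_X_sub_C]; norm_num
    · refine (natDegree_C_mul_le _ _).trans ?_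
      rw [natDegree_pow, natDegree_X_sub_C]
  have hGdeg : G.natDegree < 3 * S.card := by
    rw [hG]
    refine lt_of_le_of_lt (natDegree_sum_le_of_forall_le (n := 3 * S.card - 1) _ _ ?_) (by omega)
    intro i hi
    refine natDegree_mul_le.trans ?_
    rw [fac_natDegree S t hi]
    have := hdeg2 i
    omega
  have hdvd : ∀ i ∈ S, (X - C (t i)) ^ 3 ∣ g - G := by
    intro i hi
    rw [hG, ← Finset.add_sum_erase _ _ hi, ← sub_sub]
    refine dvd_sub (local_dvd S t ht g hi) (Finset.dvd_sum fun j hj => ?_)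
    refine Dvd.dvd.mul_right ?_ _
    unfold fac
    refine Finset.dvd_prod_of_mem (fun j => (X - C (t j)) ^ 3) ?_
    have hj' := Finset.mem_erase.mp hj
    exact Finset.mem_erase.mpr ⟨fun h => hj'.1 h.symm, hi⟩
  have hprod : (∏ i ∈ S, (X - C (t i)) ^ 3) ∣ g - G := by
    refine Finset.prod_dvd_of_coprime ?_ hdvd
    intro i hi j hj hij
    refine IsCoprime.pow ?_
    exact pairwise_coprime_X_sub_C (s := fun k : S => t k.1)
      (fun x y hxy => Subtype.ext (ht x.2 y.2 hxy)) (i := ⟨i, hi⟩) (j := ⟨j, hj⟩)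
      (fun h => hij (congrArg Subtype.val h))
  have hzero : g - G = 0 := by
    by_contra hne
    have h1 := natDegree_le_of_dvd hprod hne
    rw [natDegree_prod_of_monic _ _ fun _ _ => (monic_X_sub_C _).pow 3,
      Finset.sum_congr rfl (fun j _ => by rw [natDegree_pow, natDegree_X_sub_C]),
      Finset.sum_const] at h1
    have h2 := natDegree_sub_le g G
    have h3 : max g.natDegree G.natDegree < 3 * S.card := max_lt hg hGdeg
    simp only [smul_eq_mul, mul_one] at h1
    omega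
  have hgG : g = G := sub_eq_zero.mp hzero
  have hco : ∀ i ∈ S, (fac S t i * lq S t g i).coeff (3 * S.card - 1) = lb2 S t g i := by
    intro i hi
    have hd : 3 * S.card - 1 = (fac S t i).natDegree + 2 := by
      rw [fac_natDegree S t hi]; omega
    rw [hd, coeff_mul_add_eq_of_natDegree_le le_rfl (hdeg2 i)]
    have hm : (fac S t i).coeff (fac S t i).natDegree = 1 := (fac_monic S t i)
    rw [hm, one_mul]
    unfold lq
    have h1 : ((X : ℚ[X]) - C (t i)) ^ 2 = X ^ 2 - C (2 * t i) * X + C (t i ^ 2) := by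
      rw [C_mul, C_pow]
      have : (C (2 : ℚ)) = (2 : ℚ[X]) := rfl
      rw [this]; ring
    rw [h1]
    simp only [coeff_add, coeff_C_mul, coeff_sub, coeff_X_pow, coeff_C_succ, coeff_X]
    norm_num
  conv_lhs => rw [hgG, hG]
  rw [finsetSum_coeff]
  exact Finset.sum_congr rfl hco

end Pool.Agent.H70FM
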