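import Pool.Agent.H70FM.Func

/-!
Simultaneous approximants of the logarithms of `1 + t z`, their order of vanishing at `0`,
and the independence of their values.
-/

open Polynomial Finset

namespace Pool.Agent.H70FM

/-- coefficients of `log (1 + t z)` -/
noncomputable def Lc (t : ℚ) (s : ℕ) : ℚ := if s = 0 then 0 else (-1) ^ (s + 1) * t ^ s / s

/-- `log (1 + t z)` truncated at degree `N` -/
noncomputable def lg (N : ℕ) (t : ℚ) : ℚ[X] := ∑ s ∈ range N, monomial s (Lc t s)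

theorem lg_coeff (N : ℕ) (t : ℚ) (s : ℕ) (hs : s < N) : (lg N t).coeff s = Lc t s := by
  unfold lg
  rw [finsetSum_coeff]
  simp only [coeff_monomial]
  rw [Finset.sum_ite_eq']
  simp [hs]

theorem lg_zero (N : ℕ) : lg N 0 = 0 := by
  unfold lg Lc
  refine Finset.sum_eq_zero fun s _ => ?_
  by_cases h : s = 0
  · simp [h]
  · simp [h]

/-- the coefficient polynomial of the logarithm -/
noncomputable def pc (a0 a1 a2 t : ℚ) : ℚ[X] :=
  C (2 * a0) + C (4 * a0 * t + 4 * a1) * X + C (2 * a0 * t ^ 2 + 4 * a1 * t + 2 * a2) * X ^ 2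

/-- the rational component -/
noncomputable def pq (a1 a2 t : ℚ) : ℚ[X] := C (2 * a1) * X + C (2 * a1 * t + 3 * a2) * X ^ 2

/-- twice the coefficients of `(1+X)^2 log (1+X)` -/
noncomputable def Bc : ℕ → ℚ
  | 0 => 0
  | 1 => 2
  | 2 => 3
  | (m + 3) => (-1) ^ m * 4 / ((m + 1) * (m + 2) * (m + 3))

theorem quad_mul_coeff_zero (c0 c1 c2 : ℚ) (f : ℚ[X]) :
    ((C c0 + C c1 * X + C c2 * X ^ 2) * f).coeff 0 = c0 * f.coeff 0 := by
  simp [mul_coeff_zero]

theorem quad_mul_coeff_one (c0 c1 c2 : ℚ) (f : ℚ[X]) :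
    ((C c0 + C c1 * X + C c2 * X ^ 2) * f).coeff 1 = c0 * f.coeff 1 + c1 * f.coeff 0 := by
  have h : (C c0 + C c1 * X + C c2 * X ^ 2) * f = C c0 * f + C c1 * (f * X) + C c2 * (f * X ^ 2) := by
    ring
  rw [h, coeff_add, coeff_add, coeff_C_mul, coeff_C_mul, coeff_C_mul, coeff_mul_X_pow',
    if_neg (by norm_num), mul_zero, add_zero, coeff_mul_X f 0]

theorem quad_mul_coeff (c0 c1 c2 : ℚ) (f : ℚ[X]) (m : ℕ) :
    ((C c0 + C c1 * X + C c2 * X ^ 2) * f).coeff (m + 2) =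
      c0 * f.coeff (m + 2) + c1 * f.coeff (m + 1) + c2 * f.coeff m := by
  have h : (C c0 + C c1 * X + C c2 * X ^ 2) * f = C c0 * f + C c1 * (f * X) + C c2 * (f * X ^ 2) := by
    ring
  rw [h, coeff_add, coeff_add, coeff_C_mul, coeff_C_mul, coeff_C_mul, coeff_mul_X_pow,
    coeff_mul_X f (m + 1)]

theorem pq_coeff (a1 a2 t : ℚ) (s : ℕ) : (pq a1 a2 t).coeff s =
    if s = 1 then 2 * a1 else if s = 2 then 2 * a1 * t + 3 * a2 else 0 := by
  unfold pq
  rw [coeff_add, coeff_C_mul, coeff_C_mul, coeff_X, coeff_X_pow]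
  by_cases h1 : s = 1
  · subst h1; norm_num
  · by_cases h2 : s = 2
    · subst h2; norm_num
    · rw [if_neg (Ne.symm h1), if_neg h2, if_neg h1, if_neg h2]; norm_num

theorem order_one (N : ℕ) (a0 a1 a2 t : ℚ) (s : ℕ) (hs : s < N) :
    (pc a0 a1 a2 t * lg N t + pq a1 a2 t).coeff s =
      Bc s * (a0 * tc t (X ^ s) 0 + a1 * tc t (X ^ s) 1 + a2 * tc t (X ^ s) 2) := by
  have e0 : ∀ s : ℕ, tc t (X ^ s) 0 = t ^ s := by
    intro s; unfold tc; rw [taylor_coeff_zero, eval_pow, eval_X]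
  have e1 : ∀ s : ℕ, tc t (X ^ (s + 1)) 1 = (s + 1) * t ^ s := by
    intro s; unfold tc; rw [taylor_coeff_one, derivative_X_pow]; simp
  have e2 : ∀ s : ℕ, tc t (X ^ (s + 2)) 2 = (s + 2) * (s + 1) / 2 * t ^ s := by
    intro s
    unfold tc
    rw [taylor_coeff, ← monomial_one_right_eq_X_pow, hasseDeriv_monomial]
    simp only [Nat.add_sub_cancel, mul_one, eval_monomial]
    rw [Nat.cast_choose_two]
    push_cast
    ring
  rw [coeff_add, pq_coeff]
  unfold pc
  rcases s with _ | _ | _ | m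
  · rw [quad_mul_coeff_zero, lg_coeff _ _ _ hs]
    simp [Lc, Bc]
  · have h1 : tc t (X ^ (0 + 1)) 1 = 1 := by rw [e1]; norm_num
    have h2 : tc t (X ^ (0 + 1)) 2 = 0 := by
      unfold tc
      rw [zero_add, pow_one, taylor_X, coeff_add]
      simp [coeff_X]
    rw [zero_add] at *
    rw [quad_mul_coeff_one, lg_coeff _ _ _ hs, lg_coeff _ _ _ (by omega), e0, h1, h2]
    simp [Lc, Bc]
    ring
  · have h1 : tc t (X ^ (0 + 1 + 1)) 1 = 2 * t := by rw [e1]; norm_num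
    have h2 : tc t (X ^ (0 + 2)) 2 = 1 := by rw [e2]; norm_num
    rw [show 0 + 1 + 1 = 0 + 2 from rfl] at *
    rw [quad_mul_coeff, lg_coeff _ _ _ hs, lg_coeff _ _ _ (by omega),
      lg_coeff _ _ _ (by omega), e0, h1, h2]
    simp [Lc, Bc]
    ring
  · have h1 : tc t (X ^ (m + 3)) 1 = (m + 3) * t ^ (m + 2) := by
      rw [e1]; push_cast; ring
    have h2 : tc t (X ^ (m + 1 + 2)) 2 = (m + 3) * (m + 2) / 2 * t ^ (m + 1) := by
      rw [e2]; push_cast; ring
    rw [show m + 1 + 1 + 1 = m + 3 from rfl] at *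
    rw [show m + 1 + 2 = m + 3 from rfl] at h2
    have h3 := quad_mul_coeff (2 * a0) (4 * a0 * t + 4 * a1)
      (2 * a0 * t ^ 2 + 4 * a1 * t + 2 * a2) (lg N t) (m + 1)
    rw [show m + 1 + 2 = m + 3 from rfl] at h3
    rw [h3, lg_coeff _ _ _ hs, lg_coeff _ _ _ (by omega),
      lg_coeff _ _ _ (by omega), e0, h1, h2]
    have hm1 : ((m : ℚ) + 1) ≠ 0 := by positivity
    have hm2 : ((m : ℚ) + 2) ≠ 0 := by positivity
    have hm3 : ((m : ℚ) + 3) ≠ 0 := by positivity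
    simp only [Lc, Bc]
    rw [if_neg (by omega), if_neg (by omega), if_neg (by omega), if_neg (by omega),
      if_neg (by omega)]
    push_cast
    have hm2' : ((m : ℚ) + 1 + 1) ≠ 0 := by positivity
    field_simp
    ring

end Pool.Agent.H70FM
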