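import Pool.Agent.H70FM.Constr

/-!
From the congruence to a triple `a + b = c` with small radical.
-/

open Finset

namespace Pool.Agent.H70FM

/-- the radical of a natural number -/
def rad (m : ℕ) : ℕ := ∏ p ∈ m.primeFactors, p

theorem rad_le (m K : ℕ) (hK : K ≠ 0) (h : ∀ p ∈ m.primeFactors, p ∣ K) : rad m ≤ K := by
  have h1 : m.primeFactors ⊆ K.primeFactors := fun p hp =>
    Nat.mem_primeFactors.mpr ⟨Nat.prime_of_mem_primeFactors hp, h p hp, hK⟩
  have h2 : ∏ p ∈ K.primeFactors, p ∣ K := Nat.prod_primeFactors_dvd K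
  have h3 : rad m ∣ K := (Finset.prod_dvd_prod_of_subset _ _ _ h1).trans h2
  exact Nat.le_of_dvd (Nat.pos_of_ne_zero hK) h3

theorem triple (a n l : ℕ) (ha : 1 ≤ a) (hn : 1 ≤ n) (hl : l.Prime) (hal : a < l)
    (hnl : 2 * n + 1 < l) :
    ∃ b c : ℕ, 0 < b ∧ a + b = c ∧ Nat.Coprime a b ∧ l ^ (2 * n + 2) ≤ b ∧
      l ^ (2 * n + 1) * rad (a * b * c) ≤
        c * (a * (a + l) * ∏ i ∈ Ico 1 (n + 1), (1 + a * i * l)) ∧
      Real.log c ≤ Real.log (a + l) + ∑ i ∈ Ico 1 (n + 1),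
        (4 * (n + 1) * (108 * (1 + (a : ℝ) * n) ^ (16 * n + 2) * (l : ℝ) ^ 2) ^ 2) *
          Real.log (1 + a * i * l) := by
  obtain ⟨e, he, hdvd⟩ := construct a n l ha hn hl hal hnl
  set c : ℕ := (a + l) * ∏ i ∈ Ico 1 (n + 1), (1 + a * i * l) ^ (e i) with hc
  have hprod1 : 1 ≤ ∏ i ∈ Ico 1 (n + 1), (1 + a * i * l) ^ (e i) :=
    Nat.one_le_iff_ne_zero.mpr (Finset.prod_ne_zero_iff.mpr fun i _ => by positivity)
  have hcal : a + l ≤ c := by rw [hc]; nlinarith
  have hlpos := hl.pos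
  have hdvd' : (l : ℤ) ^ (2 * n + 2) ∣ (c : ℤ) - a := by
    have : (c : ℤ) - a =
      (a + l) * ∏ i ∈ Ico 1 (n + 1), (1 + (a : ℤ) * i * l) ^ (e i) - a := by
      rw [hc]; push_cast; ring
    rw [this]; exact hdvd
  have hdvdN : l ^ (2 * n + 2) ∣ c - a := by
    have h1 : ((c - a : ℕ) : ℤ) = (c : ℤ) - a := by
      rw [Nat.cast_sub (by omega)]
    have h2 : ((l ^ (2 * n + 2) : ℕ) : ℤ) ∣ ((c - a : ℕ) : ℤ) := by
      rw [h1]; push_cast; exact hdvd'
    exact_mod_cast h2
  obtain ⟨b', hb'⟩ := hdvdN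
  have hbpos : 0 < c - a := by omega
  have hb'pos : 0 < b' := by
    rcases Nat.eq_zero_or_pos b' with h | h
    · rw [h, mul_zero] at hb'; omega
    · exact h
  have hcopl : Nat.Coprime a l := ((Nat.Prime.coprime_iff_not_dvd hl).mpr
    (fun h => absurd (Nat.le_of_dvd (by omega) h) (by omega))).symm
  have hcopc : Nat.Coprime a c := by
    rw [hc]
    refine Nat.Coprime.mul_right ?_ (Nat.Coprime.prod_right fun i _ => ?_)
    · exact (Nat.coprime_self_add_right).mpr hcopl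
    · refine Nat.Coprime.pow_right _ ?_
      rw [mul_assoc]
      exact (Nat.coprime_add_mul_left_right a 1 (i * l)).mpr (Nat.coprime_one_right a)
  have hcopb : Nat.Coprime a (c - a) := by
    have h1 : c = (c - a) + a := by omega
    rw [h1] at hcopc
    exact (Nat.coprime_add_self_right).mp hcopc
  refine ⟨c - a, c, hbpos, by omega, hcopb, ?_, ?_, ?_⟩
  · rw [hb']
    exact Nat.le_mul_of_pos_right _ hb'pos
  · have h1 : rad (a * (c - a) * c) ≤
        a * (l * b') * ((a + l) * ∏ i ∈ Ico 1 (n + 1), (1 + a * i * l)) := by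
      refine rad_le _ _ ?_ ?_
      · have : ∏ i ∈ Ico 1 (n + 1), (1 + a * i * l) ≠ 0 :=
          Finset.prod_ne_zero_iff.mpr fun i _ => by positivity
        have h2 : a ≠ 0 := by omega
        have h3 : l ≠ 0 := by omega
        have h4 : b' ≠ 0 := by omega
        have h5 : a + l ≠ 0 := by omega
        simp only [ne_eq, mul_eq_zero, not_or]
        exact ⟨⟨h2, h3, h4⟩, h5, this⟩
      · intro p hp
        have hpp := Nat.prime_of_mem_primeFactors hp
        have hpd := Nat.dvd_of_mem_primeFactors hp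
        rcases (Nat.Prime.dvd_mul hpp).mp hpd with h2 | h2
        · rcases (Nat.Prime.dvd_mul hpp).mp h2 with h3 | h3
          · exact Dvd.dvd.mul_right (Dvd.dvd.mul_right h3 _) _
          · rw [hb'] at h3
            rcases (Nat.Prime.dvd_mul hpp).mp h3 with h4 | h4
            · have h5 := hpp.dvd_of_dvd_pow h4
              exact Dvd.dvd.mul_right (Dvd.dvd.mul_left (Dvd.dvd.mul_right h5 _) _) _
            · exact Dvd.dvd.mul_right (Dvd.dvd.mul_left (Dvd.dvd.mul_left h4 _) _) _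
        · rw [hc] at h2
          rcases (Nat.Prime.dvd_mul hpp).mp h2 with h3 | h3
          · exact Dvd.dvd.mul_left (Dvd.dvd.mul_right h3 _) _
          · obtain ⟨i, hi, h4⟩ := (Prime.dvd_finsetProd_iff hpp.prime _).mp h3
            have h5 := hpp.dvd_of_dvd_pow h4
            exact Dvd.dvd.mul_left (Dvd.dvd.mul_left
              (h5.trans (Finset.dvd_prod_of_mem (fun i => 1 + a * i * l) hi)) _) _
    calc l ^ (2 * n + 1) * rad (a * (c - a) * c)
        ≤ l ^ (2 * n + 1) * (a * (l * b') * ((a + l) * ∏ i ∈ Ico 1 (n + 1), (1 + a * i * l))) :=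
          Nat.mul_le_mul_left _ h1
      _ = (l ^ (2 * n + 2) * b') * (a * (a + l) * ∏ i ∈ Ico 1 (n + 1), (1 + a * i * l)) := by
          rw [pow_succ l (2 * n + 1)]; ring
      _ = (c - a) * (a * (a + l) * ∏ i ∈ Ico 1 (n + 1), (1 + a * i * l)) := by rw [← hb']
      _ ≤ c * (a * (a + l) * ∏ i ∈ Ico 1 (n + 1), (1 + a * i * l)) :=
          Nat.mul_le_mul_right _ (Nat.sub_le _ _)
  · have hcR : (c : ℝ) = ((a : ℝ) + l) * ∏ i ∈ Ico 1 (n + 1), (1 + (a : ℝ) * i * l) ^ (e i) := by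
      rw [hc]; push_cast; ring
    have hapos : (0 : ℝ) < a := by exact_mod_cast ha
    rw [hcR, Real.log_mul (by positivity) (by positivity)]
    rw [Real.log_prod (fun i _ => by positivity)]
    refine add_le_add le_rfl (Finset.sum_le_sum fun i hi => ?_)
    rw [Real.log_pow]
    have h1 := he i hi
    have h2 : ((e i : ℕ) : ℝ) ≤
        4 * (n + 1) * (108 * (1 + (a : ℝ) * n) ^ (16 * n + 2) * (l : ℝ) ^ 2) ^ 2 := by
      exact_mod_cast h1
    refine mul_le_mul_of_nonneg_right h2 (Real.log_nonneg ?_)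
    have : (0 : ℝ) ≤ (a : ℝ) * i * l := by positivity
    linarith

end Pool.Agent.H70FM
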