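import Pool.Agent.H70FM.Zero

/-!
The integer vectors: values of the approximants at an integer, their size, the congruence they
satisfy, and their linear independence.
-/

open Polynomial Finset

namespace Pool.Agent.H70FM

theorem tc_X_pow (t : ℚ) (r k : ℕ) : tc t (X ^ r) k = r.choose k * t ^ (r - k) := by
  unfold tc
  rw [taylor_coeff, ← monomial_one_right_eq_X_pow, hasseDeriv_monomial]
  simp

/-- Taylor coefficients of `X ^ r` as integers -/
def ek (t : ℤ) (r k : ℕ) : ℤ := r.choose k * t ^ (r - k)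

theorem ek_cast (a i r k : ℕ) : ((ek ((a : ℤ) * i) r k : ℤ) : ℚ) = tc ((a : ℚ) * i) (X ^ r) k := by
  rw [tc_X_pow]; unfold ek; push_cast; ring

theorem ek_bound (t : ℤ) (r k n : ℕ) (T : ℤ) (hT : 1 ≤ T) (ht0 : 0 ≤ t) (htT : t ≤ T)
    (hn : (n : ℤ) ≤ T) (hr : r ≤ n) : |ek t r k| ≤ T ^ n := by
  unfold ek
  by_cases hk : k ≤ r
  · rw [abs_of_nonneg (by positivity)]
    have h1 : ((r.choose k : ℕ) : ℤ) ≤ (r : ℤ) ^ k := by exact_mod_cast Nat.choose_le_pow r k
    have h2 : (r : ℤ) ≤ T := le_trans (by exact_mod_cast hr) hn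
    calc ((r.choose k : ℕ) : ℤ) * t ^ (r - k) ≤ T ^ k * T ^ (r - k) :=
          mul_le_mul (h1.trans (pow_le_pow_left₀ (by positivity) h2 k))
            (pow_le_pow_left₀ ht0 htT _) (by positivity) (by positivity)
      _ = T ^ r := by rw [← pow_add]; congr 1; omega
      _ ≤ T ^ n := pow_le_pow_right₀ hT hr
  · rw [Nat.choose_eq_zero_of_lt (by omega)]
    simp only [Nat.cast_zero, zero_mul, abs_zero]
    positivity

section

variable (a n : ℕ) (A0 A1 A2 : ℕ → ℤ)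

def a2Z (r i : ℕ) : ℤ := A2 i * ek ((a : ℤ) * i) r 0

def a1Z (r i : ℕ) : ℤ := A1 i * ek ((a : ℤ) * i) r 0 + A2 i * ek ((a : ℤ) * i) r 1

def a0Z (r i : ℕ) : ℤ :=
  A0 i * ek ((a : ℤ) * i) r 0 + A1 i * ek ((a : ℤ) * i) r 1 + A2 i * ek ((a : ℤ) * i) r 2

theorem a2Z_cast (r i : ℕ) : ((a2Z a A2 r i : ℤ) : ℚ) = a2q a A2 (X ^ r) i := by
  unfold a2Z a2q; push_cast; rw [ek_cast]

theorem a1Z_cast (r i : ℕ) : ((a1Z a A1 A2 r i : ℤ) : ℚ) = a1q a A1 A2 (X ^ r) i := by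
  unfold a1Z a1q; push_cast; rw [ek_cast, ek_cast]

theorem a0Z_cast (r i : ℕ) : ((a0Z a A0 A1 A2 r i : ℤ) : ℚ) = a0q a A0 A1 A2 (X ^ r) i := by
  unfold a0Z a0q; push_cast; rw [ek_cast, ek_cast, ek_cast]

/-- value of the coefficient polynomial of the `i`-th logarithm at `z` -/
def pcv (z : ℤ) (r i : ℕ) : ℤ :=
  2 * a0Z a A0 A1 A2 r i + (4 * a0Z a A0 A1 A2 r i * (a * i) + 4 * a1Z a A1 A2 r i) * z +
    (2 * a0Z a A0 A1 A2 r i * (a * i) ^ 2 + 4 * a1Z a A1 A2 r i * (a * i) +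
      2 * a2Z a A2 r i) * z ^ 2

/-- value of the rational component at `z` -/
def pqv (z : ℤ) (r : ℕ) : ℤ :=
  ∑ i ∈ range (n + 1), (2 * a1Z a A1 A2 r i * z +
    (2 * a1Z a A1 A2 r i * (a * i) + 3 * a2Z a A2 r i) * z ^ 2)

theorem pcv_cast (z : ℤ) (r i : ℕ) : ((pcv a A0 A1 A2 z r i : ℤ) : ℚ) =
    (pc (a0q a A0 A1 A2 (X ^ r) i) (a1q a A1 A2 (X ^ r) i) (a2q a A2 (X ^ r) i)
      ((a : ℚ) * i)).eval (z : ℚ) := by
  unfold pcv pc
  push_cast
  rw [a0Z_cast, a1Z_cast, a2Z_cast]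
  simp only [eval_add, eval_mul, eval_C, eval_X, eval_pow]

theorem pqv_cast (z : ℤ) (r : ℕ) : ((pqv a n A1 A2 z r : ℤ) : ℚ) =
    (∑ i ∈ range (n + 1), pq (a1q a A1 A2 (X ^ r) i) (a2q a A2 (X ^ r) i)
      ((a : ℚ) * i)).eval (z : ℚ) := by
  unfold pqv
  rw [eval_finsetSum]
  push_cast
  refine Finset.sum_congr rfl fun i _ => ?_
  unfold pq
  rw [a1Z_cast, a2Z_cast]
  simp only [eval_add, eval_mul, eval_C, eval_X, eval_pow]

/-- the vectors -/
def VZ (z : ℤ) (r i : ℕ) : ℤ := if i = 0 then pqv a n A1 A2 z r else pcv a A0 A1 A2 z r i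

variable {a n A0 A1 A2}

theorem tc_comb (t : ℚ) (c : Fin (n + 1) → ℚ) (k : ℕ) :
    tc t (∑ r, C (c r) * X ^ (r : ℕ)) k = ∑ r, c r * tc t (X ^ (r : ℕ)) k := by
  unfold tc
  rw [map_sum, finsetSum_coeff]
  refine Finset.sum_congr rfl fun r _ => ?_
  rw [taylor_mul, taylor_C, coeff_C_mul]

theorem a2q_comb (c : Fin (n + 1) → ℚ) (i : ℕ) :
    a2q a A2 (∑ r, C (c r) * X ^ (r : ℕ)) i = ∑ r, c r * a2q a A2 (X ^ (r : ℕ)) i := by
  unfold a2q
  rw [tc_comb, Finset.mul_sum]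
  refine Finset.sum_congr rfl fun r _ => ?_
  ring

theorem a1q_comb (c : Fin (n + 1) → ℚ) (i : ℕ) :
    a1q a A1 A2 (∑ r, C (c r) * X ^ (r : ℕ)) i = ∑ r, c r * a1q a A1 A2 (X ^ (r : ℕ)) i := by
  unfold a1q
  rw [tc_comb, tc_comb, Finset.mul_sum, Finset.mul_sum, ← Finset.sum_add_distrib]
  refine Finset.sum_congr rfl fun r _ => ?_
  ring

theorem a0q_comb (c : Fin (n + 1) → ℚ) (i : ℕ) :
    a0q a A0 A1 A2 (∑ r, C (c r) * X ^ (r : ℕ)) i =
      ∑ r, c r * a0q a A0 A1 A2 (X ^ (r : ℕ)) i := by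
  unfold a0q
  rw [tc_comb, tc_comb, tc_comb, Finset.mul_sum, Finset.mul_sum, Finset.mul_sum,
    ← Finset.sum_add_distrib, ← Finset.sum_add_distrib]
  refine Finset.sum_congr rfl fun r _ => ?_
  ring

theorem VZ_indep (ha : 1 ≤ a) (hn : 1 ≤ n) (hK : Kills a n A0 A1 A2)
    (hA2 : ∀ i ∈ range (n + 1), A2 i ≠ 0) (z : ℤ) (hz : z ≠ 0) :
    LinearIndependent ℚ (fun (r : Fin (n + 1)) (i : Fin (n + 1)) =>
      ((VZ a n A0 A1 A2 z r i : ℤ) : ℚ)) := by
  rw [Fintype.linearIndependent_iff]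
  intro c hc
  set q : ℚ[X] := ∑ r, C (c r) * X ^ (r : ℕ) with hq
  have hqdeg : q.natDegree ≤ n := by
    rw [hq]
    refine natDegree_sum_le_of_forall_le _ _ fun r _ => ?_
    refine (natDegree_C_mul_X_pow_le _ _).trans ?_
    omega
  have hcomp : ∀ i : Fin (n + 1), ∑ r, c r * ((VZ a n A0 A1 A2 z r i : ℤ) : ℚ) = 0 := by
    intro i
    have := congrFun hc i
    simpa [Finset.sum_apply] using this
  have hq0 : q = 0 := by
    refine zero_estimate ha hn hK hA2 q hqdeg (z : ℚ) (by exact_mod_cast hz) ?_ ?_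
    · intro i hi
      have hi' := Finset.mem_Ico.mp hi
      have h1 := hcomp ⟨i, hi'.2⟩
      rw [← h1, hq]
      have hne : ¬ i = 0 := by omega
      simp only [VZ, if_neg hne]
      simp only [pcv_cast]
      unfold pc
      simp only [eval_add, eval_mul, eval_C, eval_X, eval_pow]
      rw [a0q_comb, a1q_comb, a2q_comb]
      simp only [Finset.mul_sum, Finset.sum_mul, ← Finset.sum_add_distrib]
      refine Finset.sum_congr rfl fun r _ => ?_
      ring
    · have h1 := hcomp 0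
      rw [← h1, hq]
      simp only [VZ, Fin.val_zero, if_true]
      simp only [pqv_cast]
      simp only [eval_finsetSum, Finset.mul_sum]
      rw [Finset.sum_comm]
      refine Finset.sum_congr rfl fun i _ => ?_
      unfold pq
      simp only [eval_add, eval_mul, eval_C, eval_X, eval_pow]
      rw [a1q_comb, a2q_comb]
      simp only [Finset.mul_sum, Finset.sum_mul, ← Finset.sum_add_distrib]
      refine Finset.sum_congr rfl fun r _ => ?_
      ring
  intro r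
  have h2 : q.coeff (r : ℕ) = c r := by
    rw [hq, finsetSum_coeff]
    rw [Finset.sum_eq_single r]
    · simp
    · intro b _ hb
      rw [coeff_C_mul, coeff_X_pow, if_neg, mul_zero]
      intro h
      exact hb (Fin.ext h.symm)
    · intro h; exact absurd (Finset.mem_univ r) h
  rw [← h2, hq0, coeff_zero]

/-! ### The congruence -/

/-- `(N-1)!` times the truncated logarithm -/
def LZ (N : ℕ) (y : ℤ) : ℤ :=
  ∑ s ∈ range N, (if s = 0 then 0 else (-1) ^ (s + 1) * (((N - 1).factorial / s : ℕ) : ℤ) * y ^ s)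

noncomputable def lgZ (N : ℕ) (t : ℤ) : ℤ[X] :=
  ∑ s ∈ range N, monomial s
    (if s = 0 then 0 else (-1) ^ (s + 1) * (((N - 1).factorial / s : ℕ) : ℤ) * t ^ s)

theorem lgZ_eval (N : ℕ) (t z : ℤ) : (lgZ N t).eval z = LZ N (t * z) := by
  unfold lgZ LZ
  rw [eval_finsetSum]
  refine Finset.sum_congr rfl fun s _ => ?_
  rw [eval_monomial]
  split_ifs
  · simp
  · rw [mul_pow]; ring

theorem LZ_zero (N : ℕ) : LZ N 0 = 0 := by
  unfold LZ
  refine Finset.sum_eq_zero fun s _ => ?_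
  split_ifs with h
  · rfl
  · rw [zero_pow h, mul_zero]

theorem lgZ_map (N : ℕ) (t : ℤ) : (lgZ N t).map (Int.castRingHom ℚ) =
    C (((N - 1).factorial : ℕ) : ℚ) * lg N (t : ℚ) := by
  unfold lgZ lg
  rw [Polynomial.map_sum, Finset.mul_sum]
  refine Finset.sum_congr rfl fun s hs => ?_
  rw [map_monomial, C_mul_monomial]
  congr 1
  unfold Lc
  split_ifs with h
  · simp
  · have hs' := Finset.mem_range.mp hs
    have hdvd : s ∣ (N - 1).factorial := Nat.dvd_factorial (by omega) (by omega)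
    have hs0 : (s : ℚ) ≠ 0 := by exact_mod_cast h
    simp only [map_mul, map_pow, map_neg, map_one, eq_intCast, Int.cast_natCast]
    rw [Nat.cast_div hdvd hs0]
    field_simp

theorem VZ_congr (hK : Kills a n A0 A1 A2) (z : ℤ) (r : ℕ) (hr : r ≤ n) :
    z ^ (2 * n + 2) ∣ ((2 * n + 2 - 1).factorial : ℤ) * VZ a n A0 A1 A2 z r 0 +
      ∑ i ∈ Ico 1 (n + 1), VZ a n A0 A1 A2 z r i * LZ (2 * n + 2) (a * i * z) := by
  set N := 2 * n + 2 with hN
  -- the integral polynomial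
  set U : ℤ[X] := ∑ i ∈ range (n + 1),
    ((C (2 * a0Z a A0 A1 A2 r i) +
      C (4 * a0Z a A0 A1 A2 r i * (a * i) + 4 * a1Z a A1 A2 r i) * X +
      C (2 * a0Z a A0 A1 A2 r i * (a * i) ^ 2 + 4 * a1Z a A1 A2 r i * (a * i) +
      2 * a2Z a A2 r i) * X ^ 2) * lgZ N (a * i) +
    C ((N - 1).factorial : ℤ) * (C (2 * a1Z a A1 A2 r i) * X +
      C (2 * a1Z a A1 A2 r i * (a * i) + 3 * a2Z a A2 r i) * X ^ 2)) with hU
  have hmap : U.map (Int.castRingHom ℚ) =
      C (((N - 1).factorial : ℕ) : ℚ) * Uq a n A0 A1 A2 (X ^ r) := by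
    rw [hU, Polynomial.map_sum]
    unfold Uq
    rw [Finset.mul_sum]
    refine Finset.sum_congr rfl fun i _ => ?_
    rw [Polynomial.map_add, Polynomial.map_mul, lgZ_map]
    unfold pc pq
    simp only [Polynomial.map_add, Polynomial.map_mul, Polynomial.map_C, Polynomial.map_pow,
      Polynomial.map_X, Int.coe_castRingHom, Int.cast_add, Int.cast_mul, Int.cast_pow,
      Int.cast_natCast, Int.cast_ofNat, a0Z_cast, a1Z_cast, a2Z_cast]
    rw [← hN]
    ring
  have hXU : (X : ℤ[X]) ^ N ∣ U := by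
    rw [X_pow_dvd_iff]
    intro s hs
    have h1 : (U.map (Int.castRingHom ℚ)).coeff s = 0 := by
      rw [hmap, coeff_C_mul, Uq_coeff hK (X ^ r) (by rw [natDegree_X_pow]; exact hr) s hs,
        mul_zero]
    rw [coeff_map, eq_intCast] at h1
    exact_mod_cast h1
  obtain ⟨W, hW⟩ := hXU
  have hev : U.eval z = ((N - 1).factorial : ℤ) * VZ a n A0 A1 A2 z r 0 +
      ∑ i ∈ Ico 1 (n + 1), VZ a n A0 A1 A2 z r i * LZ N (a * i * z) := by
    rw [hU, eval_finsetSum]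
    simp only [eval_add, eval_mul, eval_C, eval_X, eval_pow, lgZ_eval]
    rw [Finset.sum_add_distrib, ← Finset.mul_sum, add_comm]
    congr 1
    rw [Finset.range_eq_Ico, Finset.sum_eq_sum_Ico_succ_bot (by omega)]
    rw [Nat.cast_zero, mul_zero, zero_mul, LZ_zero, mul_zero, zero_add]
    refine Finset.sum_congr rfl fun i hi => ?_
    have hi' := Finset.mem_Ico.mp hi
    unfold VZ pcv
    rw [if_neg (by omega)]
  rw [← hev, hW]
  simp only [eval_mul, eval_pow, eval_X]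
  exact dvd_mul_right _ _

/-! ### The size -/

theorem VZ_bound (ha : 1 ≤ a)
    (hA : ∀ i ∈ range (n + 1), |A0 i| ≤ 2 * (1 + (a : ℤ) * n) ^ (15 * n) ∧
        |A1 i| ≤ 2 * (1 + (a : ℤ) * n) ^ (15 * n) ∧
        |A2 i| ≤ 2 * (1 + (a : ℤ) * n) ^ (15 * n))
    (z : ℤ) (hz : 1 ≤ z) (r i : ℕ) (hr : r ≤ n) (hi : i ≤ n) :
    |VZ a n A0 A1 A2 z r i| ≤ 108 * (1 + (a : ℤ) * n) ^ (16 * n + 2) * z ^ 2 := by
  set T : ℤ := 1 + (a : ℤ) * n with hT
  have han : (0 : ℤ) ≤ (a : ℤ) * n := by positivity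
  have hT1 : 1 ≤ T := by linarith
  have ha' : (1 : ℤ) ≤ a := by exact_mod_cast ha
  have hn0 : (0 : ℤ) ≤ n := by positivity
  have hnT : (n : ℤ) + 1 ≤ T := by nlinarith
  have hekb : ∀ j ≤ n, ∀ k, |ek ((a : ℤ) * j) r k| ≤ T ^ n := by
    intro j hj k
    refine ek_bound _ _ _ n T hT1 (by positivity) ?_ (by linarith) hr
    have : (j : ℤ) ≤ n := by exact_mod_cast hj
    nlinarith
  set H : ℤ := T ^ (16 * n) with hH
  have hH0 : 0 ≤ H := by positivity
  have hprod : ∀ x e : ℤ, |x| ≤ 2 * T ^ (15 * n) → |e| ≤ T ^ n → |x * e| ≤ 2 * H := by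
    intro x e hx he
    rw [abs_mul]
    calc |x| * |e| ≤ (2 * T ^ (15 * n)) * T ^ n :=
          mul_le_mul hx he (abs_nonneg _) (by positivity)
      _ = 2 * H := by rw [hH, mul_assoc, ← pow_add]; congr 2; ring
  have b2 : ∀ j ≤ n, |a2Z a A2 r j| ≤ 6 * H := by
    intro j hj
    have hAj := hA j (Finset.mem_range.mpr (by omega))
    unfold a2Z
    have := hprod _ _ hAj.2.2 (hekb j hj 0)
    linarith
  have b1 : ∀ j ≤ n, |a1Z a A1 A2 r j| ≤ 6 * H := by
    intro j hj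
    have hAj := hA j (Finset.mem_range.mpr (by omega))
    unfold a1Z
    have h1 := hprod _ _ hAj.2.1 (hekb j hj 0)
    have h2 := hprod _ _ hAj.2.2 (hekb j hj 1)
    refine (abs_add_le _ _).trans ?_
    linarith
  have b0 : ∀ j ≤ n, |a0Z a A0 A1 A2 r j| ≤ 6 * H := by
    intro j hj
    have hAj := hA j (Finset.mem_range.mpr (by omega))
    unfold a0Z
    have h1 := hprod _ _ hAj.1 (hekb j hj 0)
    have h2 := hprod _ _ hAj.2.1 (hekb j hj 1)
    have h3 := hprod _ _ hAj.2.2 (hekb j hj 2)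
    refine (abs_add_le _ _).trans ?_
    have h4 := abs_add_le (A0 j * ek ((a : ℤ) * j) r 0) (A1 j * ek ((a : ℤ) * j) r 1)
    linarith
  have hz2 : z ≤ z ^ 2 := by nlinarith
  have hz1 : 1 ≤ z ^ 2 := by nlinarith
  have hfin : 108 * T ^ (16 * n + 2) * z ^ 2 = 108 * (H * T ^ 2 * z ^ 2) := by
    rw [hH, pow_add]; ring
  rw [hfin]
  have hTT : T ≤ T ^ 2 := by nlinarith
  have hTT1 : 1 ≤ T ^ 2 := by nlinarith
  unfold VZ
  split_ifs with h0
  · unfold pqv
    refine (Finset.abs_sum_le_sum_abs _ _).trans ?_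
    have hterm : ∀ j ∈ range (n + 1), |2 * a1Z a A1 A2 r j * z +
        (2 * a1Z a A1 A2 r j * (a * j) + 3 * a2Z a A2 r j) * z ^ 2| ≤ 42 * (H * T * z ^ 2) := by
      intro j hj
      have hj' : j ≤ n := by have := Finset.mem_range.mp hj; omega
      have c1 := b1 j hj'
      have c2 := b2 j hj'
      have hajT : (a : ℤ) * j ≤ T := by
        have : (j : ℤ) ≤ n := by exact_mod_cast hj'
        nlinarith
      have haj0 : (0 : ℤ) ≤ (a : ℤ) * j := by positivity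
      have e1 : |2 * a1Z a A1 A2 r j * z| ≤ 12 * (H * T * z ^ 2) := by
        rw [abs_mul, abs_mul, abs_of_pos (by norm_num : (0 : ℤ) < 2), abs_of_pos (by linarith : 0 < z)]
        calc 2 * |a1Z a A1 A2 r j| * z ≤ 2 * (6 * H) * z ^ 2 := by gcongr
          _ ≤ 12 * (H * T * z ^ 2) := by
            have : H * 1 * z ^ 2 ≤ H * T * z ^ 2 := by gcongr
            linarith
      have e2 : |(2 * a1Z a A1 A2 r j * (a * j) + 3 * a2Z a A2 r j) * z ^ 2| ≤
          30 * (H * T * z ^ 2) := by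
        rw [abs_mul, abs_of_nonneg (by positivity : (0 : ℤ) ≤ z ^ 2)]
        have e3 : |2 * a1Z a A1 A2 r j * (a * j) + 3 * a2Z a A2 r j| ≤ 30 * (H * T) := by
          refine (abs_add_le _ _).trans ?_
          rw [abs_mul (2 * a1Z a A1 A2 r j), abs_mul 2, abs_mul 3,
            abs_of_pos (by norm_num : (0 : ℤ) < 2),
            abs_of_pos (by norm_num : (0 : ℤ) < 3), abs_of_nonneg haj0]
          have e4 : 2 * |a1Z a A1 A2 r j| * ((a : ℤ) * j) ≤ 2 * (6 * H) * T := by gcongr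
          have e5 : 3 * |a2Z a A2 r j| ≤ 18 * (H * T) := by
            have : H * 1 ≤ H * T := by gcongr
            linarith
          linarith
        calc _ ≤ 30 * (H * T) * z ^ 2 := by gcongr
          _ = 30 * (H * T * z ^ 2) := by ring
      refine (abs_add_le _ _).trans ?_
      linarith
    refine (Finset.sum_le_sum hterm).trans ?_
    rw [Finset.sum_const, Finset.card_range, nsmul_eq_mul]
    push_cast
    calc ((n : ℤ) + 1) * (42 * (H * T * z ^ 2)) ≤ T * (42 * (H * T * z ^ 2)) := by gcongr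
      _ = 42 * (H * T ^ 2 * z ^ 2) := by ring
      _ ≤ 108 * (H * T ^ 2 * z ^ 2) := by
          have : 0 ≤ H * T ^ 2 * z ^ 2 := by positivity
          linarith
  · unfold pcv
    have c0 := b0 i hi
    have c1 := b1 i hi
    have c2 := b2 i hi
    have hajT : (a : ℤ) * i ≤ T := by
      have : (i : ℤ) ≤ n := by exact_mod_cast hi
      nlinarith
    have haj0 : (0 : ℤ) ≤ (a : ℤ) * i := by positivity
    have e1 : |2 * a0Z a A0 A1 A2 r i| ≤ 12 * (H * T ^ 2 * z ^ 2) := by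
      rw [abs_mul, abs_of_pos (by norm_num : (0 : ℤ) < 2)]
      have : H * 1 * 1 ≤ H * T ^ 2 * z ^ 2 := by gcongr
      linarith
    have e2 : |(4 * a0Z a A0 A1 A2 r i * (a * i) + 4 * a1Z a A1 A2 r i) * z| ≤
        48 * (H * T ^ 2 * z ^ 2) := by
      rw [abs_mul, abs_of_pos (by linarith : 0 < z)]
      have e3 : |4 * a0Z a A0 A1 A2 r i * (a * i) + 4 * a1Z a A1 A2 r i| ≤ 48 * (H * T ^ 2) := by
        refine (abs_add_le _ _).trans ?_
        rw [abs_mul (4 * a0Z a A0 A1 A2 r i), abs_mul 4, abs_mul 4,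
          abs_of_pos (by norm_num : (0 : ℤ) < 4), abs_of_nonneg haj0]
        have e4 : 4 * |a0Z a A0 A1 A2 r i| * ((a : ℤ) * i) ≤ 4 * (6 * H) * T ^ 2 := by
          have := hajT.trans hTT
          gcongr
        have e5 : 4 * |a1Z a A1 A2 r i| ≤ 24 * (H * T ^ 2) := by
          have : H * 1 ≤ H * T ^ 2 := by gcongr
          linarith
        linarith
      calc _ ≤ 48 * (H * T ^ 2) * z ^ 2 := by gcongr
        _ = 48 * (H * T ^ 2 * z ^ 2) := by ring
    have e6 : |(2 * a0Z a A0 A1 A2 r i * (a * i) ^ 2 + 4 * a1Z a A1 A2 r i * (a * i) +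
      2 * a2Z a A2 r i) * z ^ 2| ≤ 48 * (H * T ^ 2 * z ^ 2) := by
      rw [abs_mul, abs_of_nonneg (by positivity : (0 : ℤ) ≤ z ^ 2)]
      have e3 : |2 * a0Z a A0 A1 A2 r i * (a * i) ^ 2 + 4 * a1Z a A1 A2 r i * (a * i) +
          2 * a2Z a A2 r i| ≤ 48 * (H * T ^ 2) := by
        refine (abs_add_le _ _).trans ?_
        have e7 : |2 * a0Z a A0 A1 A2 r i * (a * i) ^ 2| ≤ 12 * (H * T ^ 2) := by
          rw [abs_mul (2 * a0Z a A0 A1 A2 r i), abs_mul 2,
            abs_of_pos (by norm_num : (0 : ℤ) < 2),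
            abs_of_nonneg (by positivity : (0 : ℤ) ≤ ((a : ℤ) * i) ^ 2)]
          calc 2 * |a0Z a A0 A1 A2 r i| * ((a : ℤ) * i) ^ 2 ≤ 2 * (6 * H) * T ^ 2 := by gcongr
            _ = 12 * (H * T ^ 2) := by ring
        have e8 : |4 * a1Z a A1 A2 r i * (a * i)| ≤ 24 * (H * T ^ 2) := by
          rw [abs_mul (4 * a1Z a A1 A2 r i), abs_mul 4,
            abs_of_pos (by norm_num : (0 : ℤ) < 4), abs_of_nonneg haj0]
          have := hajT.trans hTT
          calc 4 * |a1Z a A1 A2 r i| * ((a : ℤ) * i) ≤ 4 * (6 * H) * T ^ 2 := by gcongr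
            _ = 24 * (H * T ^ 2) := by ring
        have e9 : |2 * a2Z a A2 r i| ≤ 12 * (H * T ^ 2) := by
          rw [abs_mul, abs_of_pos (by norm_num : (0 : ℤ) < 2)]
          have : H * 1 ≤ H * T ^ 2 := by gcongr
          linarith
        have e10 := abs_add_le (2 * a0Z a A0 A1 A2 r i * ((a : ℤ) * i) ^ 2)
          (4 * a1Z a A1 A2 r i * (a * i))
        linarith
      calc _ ≤ 48 * (H * T ^ 2) * z ^ 2 := by gcongr
        _ = 48 * (H * T ^ 2 * z ^ 2) := by ring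
    refine (abs_add_le _ _).trans ?_
    have e11 := abs_add_le (2 * a0Z a A0 A1 A2 r i)
      ((4 * a0Z a A0 A1 A2 r i * (a * i) + 4 * a1Z a A1 A2 r i) * z)
    linarith

end

end Pool.Agent.H70FM
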