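import Pool.Agent.H70FM.Pade

/-!
Order of vanishing of the approximants attached to a polynomial `q`, and the zero estimate.
-/

open Polynomial Finset

namespace Pool.Agent.H70FM

/-- Leibniz rules for Taylor coefficients -/
theorem tc_mul_zero (t : ℚ) (f g : ℚ[X]) : tc t (f * g) 0 = tc t f 0 * tc t g 0 := by
  unfold tc; rw [taylor_mul, mul_coeff_zero]

theorem tc_mul_one (t : ℚ) (f g : ℚ[X]) :
    tc t (f * g) 1 = tc t f 0 * tc t g 1 + tc t f 1 * tc t g 0 := by
  unfold tc; rw [taylor_mul, coeff_mul]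
  rw [Finset.Nat.sum_antidiagonal_eq_sum_range_succ_mk]
  rw [Finset.sum_range_succ, Finset.sum_range_succ, Finset.sum_range_zero]
  norm_num

theorem tc_mul_two (t : ℚ) (f g : ℚ[X]) :
    tc t (f * g) 2 = tc t f 0 * tc t g 2 + tc t f 1 * tc t g 1 + tc t f 2 * tc t g 0 := by
  unfold tc; rw [taylor_mul, coeff_mul]
  rw [Finset.Nat.sum_antidiagonal_eq_sum_range_succ_mk]
  rw [Finset.sum_range_succ, Finset.sum_range_succ, Finset.sum_range_succ, Finset.sum_range_zero]
  norm_num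

section

variable (a n : ℕ) (A0 A1 A2 : ℕ → ℤ)

/-- the arrays of the functional multiplied by `q` -/
noncomputable def a2q (q : ℚ[X]) (i : ℕ) : ℚ := A2 i * tc ((a : ℚ) * i) q 0

noncomputable def a1q (q : ℚ[X]) (i : ℕ) : ℚ :=
  A1 i * tc ((a : ℚ) * i) q 0 + A2 i * tc ((a : ℚ) * i) q 1

noncomputable def a0q (q : ℚ[X]) (i : ℕ) : ℚ :=
  A0 i * tc ((a : ℚ) * i) q 0 + A1 i * tc ((a : ℚ) * i) q 1 + A2 i * tc ((a : ℚ) * i) q 2

/-- `A0, A1, A2` kill the polynomials of degree at most `3 n + 1` -/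
def Kills : Prop := ∀ g : ℚ[X], g.natDegree ≤ 3 * n + 1 →
        ∑ i ∈ range (n + 1), ((A0 i : ℚ) * tc ((a : ℚ) * i) g 0 +
          A1 i * tc ((a : ℚ) * i) g 1 + A2 i * tc ((a : ℚ) * i) g 2) = 0

variable {a n A0 A1 A2}

theorem shift (hK : Kills a n A0 A1 A2) (q : ℚ[X]) (hq : q.natDegree ≤ n) (s : ℕ)
    (hs : s < 2 * n + 2) :
    ∑ i ∈ range (n + 1), (a0q a A0 A1 A2 q i * tc ((a : ℚ) * i) (X ^ s) 0 +
      a1q a A1 A2 q i * tc ((a : ℚ) * i) (X ^ s) 1 +
      a2q a A2 q i * tc ((a : ℚ) * i) (X ^ s) 2) = 0 := by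
  have h := hK (q * X ^ s) (by
    refine natDegree_mul_le.trans ?_
    rw [natDegree_X_pow]; omega)
  rw [← h]
  refine Finset.sum_congr rfl fun i _ => ?_
  rw [tc_mul_zero, tc_mul_one, tc_mul_two]
  unfold a0q a1q a2q
  ring

/-- the combination of logarithms -/
noncomputable def Uq (a n : ℕ) (A0 A1 A2 : ℕ → ℤ) (q : ℚ[X]) : ℚ[X] :=
  ∑ i ∈ range (n + 1),
    (pc (a0q a A0 A1 A2 q i) (a1q a A1 A2 q i) (a2q a A2 q i) ((a : ℚ) * i) *
      lg (2 * n + 2) ((a : ℚ) * i) +
      pq (a1q a A1 A2 q i) (a2q a A2 q i) ((a : ℚ) * i))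

theorem Uq_coeff (hK : Kills a n A0 A1 A2) (q : ℚ[X]) (hq : q.natDegree ≤ n) (s : ℕ)
    (hs : s < 2 * n + 2) : (Uq a n A0 A1 A2 q).coeff s = 0 := by
  unfold Uq
  rw [finsetSum_coeff]
  rw [Finset.sum_congr rfl fun i _ => order_one _ _ _ _ _ s hs]
  rw [← Finset.mul_sum, shift hK q hq s hs, mul_zero]

/-- confluent Vandermonde: a functional with double nodes which kills small powers is zero -/
theorem confluent (S : Finset ℕ) (t : ℕ → ℚ) (ht : Set.InjOn t S) (u v : ℕ → ℚ)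
    (h : ∀ m < 2 * S.card, ∑ i ∈ S, (u i * t i ^ m + v i * (m * t i ^ (m - 1))) = 0) :
    ∀ i ∈ S, u i = 0 ∧ v i = 0 := by
  have hlin : ∀ g : ℚ[X], g.natDegree < 2 * S.card →
      ∑ i ∈ S, (u i * g.eval (t i) + v i * (derivative g).eval (t i)) = 0 := by
    intro g hg
    have hg' := g.as_sum_range' (2 * S.card) hg
    have hterm : ∀ i, u i * g.eval (t i) + v i * (derivative g).eval (t i) =
        ∑ m ∈ range (2 * S.card), g.coeff m * (u i * t i ^ m + v i * (m * t i ^ (m - 1))) := by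
      intro i
      conv_lhs => rw [hg']
      rw [derivative_sum, eval_finsetSum, eval_finsetSum, Finset.mul_sum, Finset.mul_sum,
        ← Finset.sum_add_distrib]
      refine Finset.sum_congr rfl fun m _ => ?_
      rw [derivative_monomial, eval_monomial, eval_monomial]
      ring
    rw [Finset.sum_congr rfl fun i _ => hterm i, Finset.sum_comm]
    refine Finset.sum_eq_zero fun m hm => ?_
    rw [← Finset.mul_sum, h m (Finset.mem_range.mp hm), mul_zero]
  intro i hi
  set G : ℚ[X] := ∏ j ∈ S.erase i, (X - C (t j)) ^ 2 with hG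
  have hGdeg : G.natDegree = 2 * (S.card - 1) := by
    rw [hG, natDegree_prod_of_monic _ _ fun _ _ => (monic_X_sub_C _).pow 2,
      Finset.sum_congr rfl (fun j _ => by rw [natDegree_pow, natDegree_X_sub_C]),
      Finset.sum_const, Finset.card_erase_of_mem hi]
    simp [mul_comm]
  have hc : 1 ≤ S.card := Finset.card_pos.mpr ⟨i, hi⟩
  have hGi : G.eval (t i) ≠ 0 := by
    rw [hG, eval_prod]
    refine Finset.prod_ne_zero_iff.mpr fun j hj => ?_
    rw [eval_pow, eval_sub, eval_X, eval_C]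
    have hj' := Finset.mem_erase.mp hj
    refine pow_ne_zero 2 (sub_ne_zero.mpr fun h => hj'.1 ?_)
    exact (ht hi hj'.2 h).symm
  have hGj : ∀ j ∈ S.erase i, ∃ F : ℚ[X], G = (X - C (t j)) ^ 2 * F := by
    intro j hj
    have : (X - C (t j)) ^ 2 ∣ G := by
      rw [hG]
      exact Finset.dvd_prod_of_mem (fun j => (X - C (t j)) ^ 2) hj
    exact this
  have hv : v i = 0 := by
    have h1 := hlin (G * (X - C (t i))) (by
      refine lt_of_le_of_lt natDegree_mul_le ?_
      rw [hGdeg, natDegree_X_sub_C]; omega)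
    rw [← Finset.add_sum_erase _ _ hi] at h1
    have h2 : ∑ j ∈ S.erase i, (u j * (G * (X - C (t i))).eval (t j) +
        v j * (derivative (G * (X - C (t i)))).eval (t j)) = 0 := by
      refine Finset.sum_eq_zero fun j hj => ?_
      obtain ⟨F, hF⟩ := hGj j hj
      rw [hF]
      simp [derivative_mul, derivative_pow]
    rw [h2, add_zero] at h1
    simp [derivative_mul, hGi] at h1
    exact h1
  have hu : u i = 0 := by
    have h1 := hlin G (by rw [hGdeg]; omega)
    rw [← Finset.add_sum_erase _ _ hi] at h1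
    have h2 : ∑ j ∈ S.erase i, (u j * G.eval (t j) +
        v j * (derivative G).eval (t j)) = 0 := by
      refine Finset.sum_eq_zero fun j hj => ?_
      obtain ⟨F, hF⟩ := hGj j hj
      rw [hF]
      simp [derivative_mul, derivative_pow]
    rw [h2, add_zero, hv, zero_mul, add_zero] at h1
    rcases mul_eq_zero.mp h1 with h3 | h3
    · exact h3
    · exact absurd h3 hGi
  exact ⟨hu, hv⟩

/-- the zero estimate -/
theorem zero_estimate (ha : 1 ≤ a) (hn : 1 ≤ n) (hK : Kills a n A0 A1 A2)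
    (hA2 : ∀ i ∈ range (n + 1), A2 i ≠ 0) (q : ℚ[X]) (hq : q.natDegree ≤ n) (z : ℚ) (hz : z ≠ 0)
    (hv : ∀ i ∈ Ico 1 (n + 1),
      (pc (a0q a A0 A1 A2 q i) (a1q a A1 A2 q i) (a2q a A2 q i) ((a : ℚ) * i)).eval z = 0)
    (hs : (∑ i ∈ range (n + 1),
      pq (a1q a A1 A2 q i) (a2q a A2 q i) ((a : ℚ) * i)).eval z = 0) : q = 0 := by
  classical
  have hapos : (0 : ℚ) < a := by exact_mod_cast ha
  -- write everything as a multiple of `X - z`
  set c0 : ℕ → ℚ := fun i => 2 * a0q a A0 A1 A2 q i with hc0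
  set c1 : ℕ → ℚ := fun i => 4 * a0q a A0 A1 A2 q i * ((a : ℚ) * i) + 4 * a1q a A1 A2 q i with hc1
  set c2 : ℕ → ℚ := fun i => 2 * a0q a A0 A1 A2 q i * ((a : ℚ) * i) ^ 2 +
    4 * a1q a A1 A2 q i * ((a : ℚ) * i) + 2 * a2q a A2 q i with hc2
  have hpc : ∀ i, pc (a0q a A0 A1 A2 q i) (a1q a A1 A2 q i) (a2q a A2 q i) ((a : ℚ) * i) =
      C (c0 i) + C (c1 i) * X + C (c2 i) * X ^ 2 := fun i => rfl
  set al : ℕ → ℚ := fun i => c1 i + z * c2 i with hal
  set be : ℕ → ℚ := fun i => c2 i with hbe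
  have hfac : ∀ i ∈ Ico 1 (n + 1), C (c0 i) + C (c1 i) * X + C (c2 i) * X ^ 2 =
      (X - C z) * (C (al i) + C (be i) * X) := by
    intro i hi
    have h1 := hv i hi
    rw [hpc] at h1
    simp only [eval_add, eval_mul, eval_C, eval_X, eval_pow] at h1
    have h2 : c0 i = -(c1 i * z + c2 i * z ^ 2) := by linarith
    rw [h2]
    simp only [hal, hbe, C_neg, C_add, C_mul, C_pow]
    ring
  -- the rational component
  set s1 : ℚ := ∑ i ∈ range (n + 1), 2 * a1q a A1 A2 q i with hs1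
  set s2 : ℚ := ∑ i ∈ range (n + 1), (2 * a1q a A1 A2 q i * ((a : ℚ) * i) + 3 * a2q a A2 q i)
    with hs2
  have hps : ∑ i ∈ range (n + 1), pq (a1q a A1 A2 q i) (a2q a A2 q i) ((a : ℚ) * i) =
      C s1 * X + C s2 * X ^ 2 := by
    rw [hs1, hs2, map_sum, map_sum, Finset.sum_mul, Finset.sum_mul, ← Finset.sum_add_distrib]
    rfl
  have hfacs : C s1 * X + C s2 * X ^ 2 = (X - C z) * (C s2 * X) := by
    rw [hps] at hs
    simp only [eval_add, eval_mul, eval_C, eval_X, eval_pow] at hs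
    have h1 : s1 = - (s2 * z) := by
      have h2 : z * (s1 + s2 * z) = 0 := by linarith
      rcases mul_eq_zero.mp h2 with h3 | h3
      · exact absurd h3 hz
      · linarith
    rw [h1]
    simp only [C_neg, C_mul]
    ring
  set V : ℚ[X] := C s2 * X + ∑ i ∈ Ico 1 (n + 1), (C (al i) + C (be i) * X) *
    lg (2 * n + 2) ((a : ℚ) * i) with hV
  have hU : Uq a n A0 A1 A2 q = (X - C z) * V := by
    unfold Uq
    rw [Finset.sum_add_distrib, hps, hfacs, hV, mul_add, add_comm]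
    congr 1
    rw [Finset.range_eq_Ico, Finset.sum_eq_sum_Ico_succ_bot (by omega), Nat.cast_zero, mul_zero,
      lg_zero, mul_zero, zero_add, Finset.mul_sum]
    refine Finset.sum_congr rfl fun i hi => ?_
    rw [hpc, hfac i hi, mul_assoc]
  have hXU : (X : ℚ[X]) ^ (2 * n + 2) ∣ (X - C z) * V := by
    rw [← hU, X_pow_dvd_iff]
    exact fun s hs' => Uq_coeff hK q hq s hs'
  have hcop : IsCoprime ((X : ℚ[X]) ^ (2 * n + 2)) (X - C z) := by
    refine IsCoprime.pow_left ?_
    have h1 : IsCoprime ((X : ℚ[X]) - C 0) (X - C z) :=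
      isCoprime_X_sub_C_of_isUnit_sub (by rw [zero_sub]; exact (isUnit_iff_ne_zero.mpr hz).neg)
    rwa [C_0, sub_zero] at h1
  have hXV : (X : ℚ[X]) ^ (2 * n + 2) ∣ V := hcop.dvd_of_dvd_mul_left hXU
  rw [X_pow_dvd_iff] at hXV
  -- coefficients
  have hcoef : ∀ m < 2 * n, ∑ i ∈ Ico 1 (n + 1),
      (al i * Lc ((a : ℚ) * i) (m + 2) + be i * Lc ((a : ℚ) * i) (m + 1)) = 0 := by
    intro m hm
    have h1 := hXV (m + 2) (by omega)
    rw [hV, coeff_add, finsetSum_coeff, coeff_C_mul, coeff_X, if_neg (by omega), mul_zero,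
      zero_add] at h1
    rw [← h1]
    refine Finset.sum_congr rfl fun i _ => ?_
    have e1 : ((C (al i) + C (be i) * X) * lg (2 * n + 2) ((a : ℚ) * i)).coeff (m + 2) =
        al i * Lc ((a : ℚ) * i) (m + 2) + be i * Lc ((a : ℚ) * i) (m + 1) := by
      rw [add_mul (C (al i)), coeff_add, coeff_C_mul, mul_assoc, coeff_C_mul, coeff_X_mul,
        lg_coeff _ _ _ (by omega), lg_coeff _ _ _ (by omega)]
    rw [e1]
  have hconf := confluent (Ico 1 (n + 1)) (fun i => (a : ℚ) * i) (by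
      intro x _ y _ hxy
      have := mul_left_cancel₀ hapos.ne' hxy
      exact_mod_cast this)
    (fun i => al i * ((a : ℚ) * i) ^ 2 - 2 * be i * ((a : ℚ) * i))
    (fun i => al i * ((a : ℚ) * i) ^ 3 - be i * ((a : ℚ) * i) ^ 2) (by
      intro m hm
      rw [Nat.card_Ico, Nat.add_sub_cancel] at hm
      have h1 := hcoef m hm
      have hm1 : ((m : ℚ) + 1) ≠ 0 := by positivity
      have hm2 : ((m : ℚ) + 2) ≠ 0 := by positivity
      have h2 : ∑ i ∈ Ico 1 (n + 1), ((-1) ^ (m + 1) * ((m : ℚ) + 1) * ((m : ℚ) + 2)) *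
          (al i * Lc ((a : ℚ) * i) (m + 2) + be i * Lc ((a : ℚ) * i) (m + 1)) = 0 := by
        rw [← Finset.mul_sum, h1, mul_zero]
      rw [← h2]
      refine Finset.sum_congr rfl fun i _ => ?_
      simp only [Lc]
      rw [if_neg (by omega), if_neg (by omega)]
      have hsq : ((-1 : ℚ) ^ m) * (-1) ^ m = 1 := by
        rw [← mul_pow]; norm_num
      push_cast
      generalize (a : ℚ) * i = t
      have e3 : (-1 : ℚ) ^ (m + 1) * ((m : ℚ) + 1) * ((m : ℚ) + 2) *
          (al i * ((-1) ^ (m + 2 + 1) * t ^ (m + 2) / ((m : ℚ) + 2)) +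
            be i * ((-1) ^ (m + 1 + 1) * t ^ (m + 1) / ((m : ℚ) + 1))) =
          ((-1 : ℚ) ^ m * (-1) ^ m) * (((m : ℚ) + 1) * al i * t ^ (m + 2) -
            ((m : ℚ) + 2) * be i * t ^ (m + 1)) := by
        field_simp
        ring
      rw [e3, hsq]
      rcases m with _ | m
      · push_cast; simp
      · rw [Nat.add_sub_cancel]; push_cast; ring)
  -- all coefficients vanish
  have hzero : ∀ i ∈ Ico 1 (n + 1), tc ((a : ℚ) * i) q 0 = 0 ∧ tc ((a : ℚ) * i) q 1 = 0 := by
    intro i hi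
    obtain ⟨h1, h2⟩ := hconf i hi
    have hi' := Finset.mem_Ico.mp hi
    have hipos : (0 : ℚ) < i := by exact_mod_cast hi'.1
    have ht : (a : ℚ) * i ≠ 0 := by positivity
    have hfi := hfac i hi
    have hA := hA2 i (Finset.mem_range.mpr hi'.2)
    have hA' : (A2 i : ℚ) ≠ 0 := by exact_mod_cast hA
    set t : ℚ := (a : ℚ) * i with htdef
    have h3 : al i * t - 2 * be i = 0 := by
      have : t * (al i * t - 2 * be i) = 0 := by linarith
      exact (mul_eq_zero.mp this).resolve_left ht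
    have h4 : al i * t - be i = 0 := by
      have : t ^ 2 * (al i * t - be i) = 0 := by linarith
      exact (mul_eq_zero.mp this).resolve_left (pow_ne_zero 2 ht)
    have hbe0 : be i = 0 := by linarith
    have hal0 : al i = 0 := by
      have : al i * t = 0 := by linarith
      exact (mul_eq_zero.mp this).resolve_right ht
    have hc2' : c2 i = 0 := hbe0
    have hc1' : c1 i = 0 := by
      have : c1 i + z * c2 i = 0 := hal0
      rw [hc2'] at this; linarith
    have hc0' : c0 i = 0 := by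
      rw [hal0, hbe0, hc1', hc2'] at hfi
      simp only [C_0, zero_mul, add_zero, mul_zero] at hfi
      exact C_eq_zero.mp hfi
    have k0 : a0q a A0 A1 A2 q i = 0 := by
      have : 2 * a0q a A0 A1 A2 q i = 0 := hc0'
      linarith
    have k1 : a1q a A1 A2 q i = 0 := by
      have : 4 * a0q a A0 A1 A2 q i * ((a : ℚ) * i) + 4 * a1q a A1 A2 q i = 0 := hc1'
      rw [k0] at this; linarith
    have k2 : a2q a A2 q i = 0 := by
      have : 2 * a0q a A0 A1 A2 q i * ((a : ℚ) * i) ^ 2 +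
        4 * a1q a A1 A2 q i * ((a : ℚ) * i) + 2 * a2q a A2 q i = 0 := hc2'
      rw [k0, k1] at this; linarith
    have k3 : tc ((a : ℚ) * i) q 0 = 0 := by
      have : (A2 i : ℚ) * tc ((a : ℚ) * i) q 0 = 0 := k2
      exact (mul_eq_zero.mp this).resolve_left hA'
    have k4 : tc ((a : ℚ) * i) q 1 = 0 := by
      have : (A1 i : ℚ) * tc ((a : ℚ) * i) q 0 + A2 i * tc ((a : ℚ) * i) q 1 = 0 := k1
      rw [k3, mul_zero, zero_add] at this
      exact (mul_eq_zero.mp this).resolve_left hA'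
    exact ⟨k3, k4⟩
  -- `q` has too many zeros
  by_contra hq0
  have hdvd : ∀ i ∈ Ico 1 (n + 1), (X - C ((a : ℚ) * i)) ^ 2 ∣ q := by
    intro i hi
    obtain ⟨h1, h2⟩ := hzero i hi
    rw [X_sub_C_pow_dvd_iff, ← taylor_apply, X_pow_dvd_iff]
    intro d hd
    interval_cases d
    · exact h1
    · exact h2
  have hprod : (∏ i ∈ Ico 1 (n + 1), (X - C ((a : ℚ) * i)) ^ 2) ∣ q := by
    refine Finset.prod_dvd_of_coprime ?_ hdvd
    intro i hi j hj hij
    refine IsCoprime.pow ?_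
    refine isCoprime_X_sub_C_of_isUnit_sub (isUnit_iff_ne_zero.mpr (sub_ne_zero.mpr ?_))
    intro h
    have := mul_left_cancel₀ hapos.ne' h
    exact hij (by exact_mod_cast this)
  have h1 := natDegree_le_of_dvd hprod hq0
  rw [natDegree_prod_of_monic _ _ fun _ _ => (monic_X_sub_C _).pow 2,
      Finset.sum_congr rfl (fun j _ => by rw [natDegree_pow, natDegree_X_sub_C]),
      Finset.sum_const, Nat.card_Ico] at h1
  simp only [smul_eq_mul, mul_one] at h1
  omega

end

end Pool.Agent.H70FM
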